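import Pool.Agent.H660R2.NX.UnivSet
import Pool.Agent.H673R2.OneOne.Fp

/-!
# A complete set for `NP` relative to any oracle
-/

namespace Pool.Agent.H673R2.OneTT

open MeasureTheory Pool.Agent.NPC Pool.Agent.H628R3.RO Pool.Agent.H673R2.OneOne
open Pool.Agent.H660R2.NX

attribute [local irreducible] unpair

/-- The next action of the simulated algorithm. The instance `(unpair x).1` consists of a code, an
input and a time bound; `(unpair x).2` is the witness, `a` is the list of the answers. -/
def actU (x a : List Bool) : List Bool :=
  (unbits Code (unpair (unpair x).1).1).elim [true] (fun e =>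
    (U e (pairBits (pairBits (unpair (unpair (unpair x).1).2).1 (unpair x).2) a)
      ((unpair (unpair (unpair x).1).2).2.map (fun _ => ())).length).elim [true] (fun r => r))

/-- the next action of the universal algorithm -/
def uD (v : List Bool) : List Bool :=
  if (unpair v).2.length + 1 ≤ (unpair v).1.length then actU (unpair v).1 (unpair v).2 else [true]

theorem poly_actU {α : Type} [TEnc α] {x a : α → List Bool} (hx : Poly x) (ha : Poly a) :
    Poly (fun i => actU (x i) (a i)) := by
  unfold actU
  have h0 : Poly (unbits Code) := poly_unbits
  have h1 : Poly (fun i => unbits Code (unpair (unpair (x i)).1).1) :=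
    h0.comp (by fun_prop)
  refine Poly.optElim h1 (by fun_prop) ?_
  refine Poly.optElim (o := fun p : α × Code =>
    U p.2 (pairBits (pairBits (unpair (unpair (unpair (x p.1)).1).2).1 (unpair (x p.1)).2) (a p.1))
      ((unpair (unpair (unpair (x p.1)).1).2).2.map (fun _ => ())).length) ?_ (by fun_prop)
      (by fun_prop)
  exact poly_U.comp (f := fun p : α × Code =>
    (p.2, pairBits (pairBits (unpair (unpair (unpair (x p.1)).1).2).1 (unpair (x p.1)).2) (a p.1),
      (unpair (unpair (unpair (x p.1)).1).2).2.map (fun _ => ()))) (by fun_prop)

theorem poly_uD : Poly uD := by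
  unfold uD
  have h1 : Poly (fun v : List Bool => (unpair v).1) := Poly.fst poly_unpair
  have h2 : Poly (fun v : List Bool => (unpair v).2) := Poly.snd poly_unpair
  exact Poly.ite (Poly.decide_le (UPoly.add (UPoly.length h2) (UPoly.const 1)).toPoly
    (Poly.length h1)) (poly_actU h1 h2) (NPC.Poly.const _)

/-- the universal algorithm -/
noncomputable def uA : Alg where
  D := uD
  poly := H622R2.polyTime_of_poly_list poly_uD
  p := Polynomial.X + 1

theorem uA_total (A : Oracle) (x : List Bool) : ∃ z, uA.out A x = some z := by
  have key : ∀ (n : ℕ) (a : List Bool), a.length + (n + 1) = x.length + 1 →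
      ∃ z, uA.run A x (n + 1) a = some z := by
    intro n
    induction n with
    | zero =>
      intro a ha
      have h1 : uA.D (pairBits x a) = [true] := by
        show uD _ = _
        unfold uD
        rw [unpair_pairBits, if_neg (by simp only; omega)]
      rw [Alg.run, h1]
      exact ⟨_, rfl⟩
    | succ n ih =>
      intro a ha
      rw [Alg.run]
      rcases uA.D (pairBits x a) with _ | ⟨c, q⟩
      · exact ⟨_, rfl⟩
      · cases c with
        | true => exact ⟨_, rfl⟩
        | false => exact ih _ (by rw [List.length_append, List.length_singleton]; omega)
  have h := key x.length [] (by simp)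
  have h1 : uA.p.eval x.length = x.length + 1 := by
    show (Polynomial.X + 1 : Polynomial ℕ).eval x.length = _
    simp
  unfold Alg.out
  rw [h1]
  exact h

/-- the complete set -/
def KA (A : Oracle) : Set (List Bool) :=
  {y | ∃ w : List Bool, w.length ≤ y.length ∧ uA.out A (pairBits y w) = some [true]}

theorem isNP_KA (A : Oracle) : IsNP A (KA A) := by
  choose F hF using uA_total A
  refine ⟨F, Polynomial.X, ⟨uA, hF⟩, fun x => ?_⟩
  unfold KA
  simp only [Set.mem_ofPred_eq, Polynomial.eval_X, hF, Option.some.injEq]

/-- the instance: code, input and time bound -/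
def insK (e : Code) (u : List Bool) (m : ℕ) : List Bool :=
  pairBits (bits e) (pairBits u (List.replicate m true))

theorem le_length_insK (e : Code) (u : List Bool) (m : ℕ) : m ≤ (insK e u m).length := by
  unfold insK
  rw [H628R3.RO.length_pairBits, H628R3.RO.length_pairBits, List.length_replicate]
  omega

theorem actU_insK (e : Code) (u w a : List Bool) (m : ℕ) :
    actU (pairBits (insK e u m) w) a =
      (U e (pairBits (pairBits u w) a) m).elim [true] (fun r => r) := by
  unfold actU insK
  simp only [unpair_pairBits, unbits_bits, Option.elim_some, List.map_replicate,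
    List.length_replicate]

theorem run_det (M : Alg) (A : Oracle) (x : List Bool) : ∀ (n n' : ℕ) (a z z' : List Bool),
    M.run A x n a = some z → M.run A x n' a = some z' → z = z' := by
  intro n
  induction n with
  | zero => intro n' a z z' h; simp [Alg.run] at h
  | succ n ih =>
    intro n' a z z' h h'
    rcases n' with _ | n'
    · simp [Alg.run] at h'
    · rw [Alg.run] at h h'
      rcases hq : M.D (pairBits x a) with _ | ⟨c, q⟩
      · rw [hq] at h h'
        simp only [Option.some.injEq] at h h'
        rw [← h, ← h']
      · cases c with
        | true =>
          rw [hq] at h h'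
          simp only [Option.some.injEq] at h h'
          rw [← h, ← h']
        | false =>
          rw [hq] at h h'
          exact ih n' _ _ _ h h'

theorem uA_sound {M : Alg} {e : Code} {pe : Polynomial ℕ} (he : IsCode e M.D pe) {A : Oracle}
    {u w : List Bool} {m : ℕ} : ∀ (n : ℕ) (a : List Bool),
    uA.run A (pairBits (insK e u m) w) n a = some [true] →
      ∃ n', M.run A (pairBits u w) n' a = some [true] := by
  intro n
  induction n with
  | zero => intro a h; simp [Alg.run] at h
  | succ n ih =>
    intro a h
    rw [Alg.run] at h
    have h1 : uA.D (pairBits (pairBits (insK e u m) w) a) =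
        if a.length + 1 ≤ (pairBits (insK e u m) w).length then
          actU (pairBits (insK e u m) w) a else [true] := by
      show uD _ = _
      unfold uD
      rw [unpair_pairBits]
    rw [h1, actU_insK] at h
    split_ifs at h with h2
    · rcases hU : U e (pairBits (pairBits u w) a) m with _ | r
      · rw [hU] at h
        simp at h
      · rw [hU] at h
        simp only [Option.elim_some] at h
        have h3 := he.eq hU
        rcases r with _ | ⟨c, q⟩
        · simp at h
        · cases c with
          | true =>
            simp only [Option.some.injEq] at h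
            refine ⟨0 + 1, ?_⟩
            rw [Alg.run, ← h3, h]
          | false =>
            simp only at h
            obtain ⟨n', h4⟩ := ih _ h
            refine ⟨n' + 1, ?_⟩
            rw [Alg.run, ← h3]
            exact h4
    · simp at h

theorem uA_complete {M : Alg} {e : Code} {pe : Polynomial ℕ} (he : IsCode e M.D pe) {A : Oracle}
    {u w z : List Bool} {m B : ℕ} (hm : B ≤ m)
    (hB : ∀ a : List Bool, a.length ≤ B → pe.eval (pairBits (pairBits u w) a).length ≤ m) :
    ∀ (n : ℕ) (a : List Bool), a.length + n ≤ B → M.run A (pairBits u w) n a = some z →
      ∀ n' ≥ n, uA.run A (pairBits (insK e u m) w) n' a = some z := by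
  intro n
  induction n with
  | zero => intro a _ h; simp [Alg.run] at h
  | succ n ih =>
    intro a ha h n' hn'
    obtain ⟨n', rfl⟩ : ∃ k, n' = k + 1 := ⟨n' - 1, by omega⟩
    rw [Alg.run] at h ⊢
    have h0 : a.length + 1 ≤ (pairBits (insK e u m) w).length := by
      have h1 := le_length_insK e u m
      rw [H628R3.RO.length_pairBits]
      omega
    have h1 : uA.D (pairBits (pairBits (insK e u m) w) a) = M.D (pairBits (pairBits u w) a) := by
      show uD _ = _
      unfold uD
      rw [unpair_pairBits, if_pos h0, actU_insK, he _ _ (hB a (by omega))]
      rfl
    rw [h1]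
    rcases hq : M.D (pairBits (pairBits u w) a) with _ | ⟨c, q⟩
    · rw [hq] at h
      exact h
    · cases c with
      | true =>
        rw [hq] at h
        exact h
      | false =>
        rw [hq] at h
        exact ih _ (by rw [List.length_append, List.length_singleton]; omega) h n' (by omega)

/-- The set `KA A` is complete for `NP` relative to `A`. -/
theorem hard_KA (A : Oracle) : NPHardRel A (KA A) := by
  intro L hL
  obtain ⟨V, p, hV, hLV⟩ := hL
  -- the verifier checks the length of the witness
  have h2 : IsFP A (fun t => pairBits (V t) t) := IsFP.pair hV (IsFP.of_poly Poly.id)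
  have h3 : Poly (fun t : List Bool => [decide ((unpair t).1 = [true]) &&
      decide ((unpair (unpair t).2).2.length ≤ p.eval (unpair (unpair t).2).1.length)]) := by
    have h4 : Poly (fun t : List Bool => (unpair t).2) := Poly.snd poly_unpair
    have h5 : Poly (fun t : List Bool => (unpair (unpair t).2).1) :=
      Poly.fst (poly_unpair.comp h4)
    have h6 : Poly (fun t : List Bool => (unpair (unpair t).2).2) :=
      Poly.snd (poly_unpair.comp h4)
    exact Poly.cons (Poly.and (Poly.decide_eq (Poly.fst poly_unpair) (NPC.Poly.const [true]))
      (Poly.decide_le (Poly.length h6) (UPoly.eval (UPoly.length h5) p).toPoly))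
      (NPC.Poly.const [])
  have h4 := IsFP.comp (IsFP.of_poly (A := A) h3) h2
  simp only [unpair_pairBits] at h4
  obtain ⟨M, hM⟩ := h4
  beta_reduce at hM
  obtain ⟨e, pe, he⟩ := U_complete M.poly
  have hcode : IsCode e M.D pe := he
  -- the time bound
  set b1 : Polynomial ℕ := 2 * Polynomial.X + 1 + p with hb1
  set b2 : Polynomial ℕ := M.p.comp b1 with hb2
  set bm : Polynomial ℕ := b2 + pe.comp (2 * b1 + 1 + b2) + p with hbm
  refine ⟨fun u => insK e u (bm.eval u.length), ?_, fun u => ?_⟩
  · apply IsFP.of_poly
    unfold insK
    exact H622R2.poly_pairBits (NPC.Poly.const _) (H622R2.poly_pairBits Poly.id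
      (p_replicate (UPoly.eval (UPoly.length Poly.id) bm) true))
  · rw [hLV]
    unfold KA
    simp only [Set.mem_ofPred_eq]
    constructor
    · rintro ⟨w, hw, hVw⟩
      refine ⟨w, ?_, ?_⟩
      · have h5 := le_length_insK e u (bm.eval u.length)
        have h6 : p.eval u.length ≤ (insK e u (bm.eval u.length)).length := by
          refine le_trans ?_ h5
          rw [hbm, Polynomial.eval_add]
          omega
        exact hw.trans h6
      · have h5 := hM (pairBits u w)
        have h6 : (pairBits u w).length ≤ b1.eval u.length := by
          rw [H628R3.RO.length_pairBits, hb1]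
          simp only [Polynomial.eval_add, Polynomial.eval_mul, Polynomial.eval_X,
            Polynomial.eval_one, Polynomial.eval_ofNat]
          omega
        have h7 : M.p.eval (pairBits u w).length ≤ b2.eval u.length := by
          rw [hb2, Polynomial.eval_comp]
          exact eval_mono _ h6
        have h8 : M.out A (pairBits u w) = some [true] := by
          rw [h5, unpair_pairBits]
          simp [hVw, hw]
        unfold Alg.out at h8
        have h9 : bm.eval u.length = b2.eval u.length +
            (pe.comp (2 * b1 + 1 + b2)).eval u.length + p.eval u.length := by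
          rw [hbm, Polynomial.eval_add, Polynomial.eval_add]
        have h10 : uA.p.eval (pairBits (insK e u (bm.eval u.length)) w).length =
            (pairBits (insK e u (bm.eval u.length)) w).length + 1 := by
          show (Polynomial.X + 1 : Polynomial ℕ).eval _ = _
          simp
        unfold Alg.out
        refine uA_complete hcode (B := M.p.eval (pairBits u w).length) (by omega) ?_ _ _ (by simp)
          h8 _ ?_
        · intro a ha
          refine le_trans (eval_mono pe (n := (2 * b1 + 1 + b2).eval u.length) ?_) ?_
          · rw [H628R3.RO.length_pairBits]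
            simp only [Polynomial.eval_add, Polynomial.eval_mul,
              Polynomial.eval_one, Polynomial.eval_ofNat]
            omega
          · rw [← Polynomial.eval_comp]
            omega
        · rw [h10, H628R3.RO.length_pairBits]
          have h11 := le_length_insK e u (bm.eval u.length)
          omega
    · rintro ⟨w, -, h5⟩
      obtain ⟨n', h6⟩ := uA_sound hcode _ _ h5
      have h7 := hM (pairBits u w)
      unfold Alg.out at h7
      have h8 := run_det M A _ _ _ _ _ _ h6 h7
      rw [unpair_pairBits] at h8
      simp only [List.cons.injEq, and_true] at h8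
      have h9 := h8.symm
      simp only [Bool.and_eq_true, decide_eq_true_eq] at h9
      exact ⟨w, h9.2, h9.1⟩

end Pool.Agent.H673R2.OneTT
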