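import Pool.Agent.H673R2.OneTT.MainN

/-!
# One question is as good as none
-/

namespace Pool.Agent.H673R2.OneTT

open MeasureTheory Pool.Agent.NPC Pool.Agent.H628R3.RO Pool.Agent.H673R2.OneOne

open Classical in
/-- the membership bit -/
noncomputable def chi (B : Set (List Bool)) (y : List Bool) : List Bool := [decide (y ∈ B)]

/-- Reductions with one question: `Q x` is the question, `H` evaluates the answer. -/
def Red1tt (A : Oracle) (L B : Set (List Bool)) : Prop :=
  ∃ Q H : List Bool → List Bool, IsFP A Q ∧ IsFP A H ∧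
    ∀ x, x ∈ L ↔ H (pairBits x (chi B (Q x))) = [true]

/-- the normal form of a reduction with one question -/
def nf (b0 b1 : List Bool) (Q H : List Bool → List Bool) (x : List Bool) : List Bool :=
  if H (pairBits x [true]) = [true] then
    (if H (pairBits x [false]) = [true] then true :: b1 else true :: Q x)
  else (if H (pairBits x [false]) = [true] then false :: Q x else true :: b0)

/-- signed membership -/
def sgn (B : Set (List Bool)) : Set (List Bool) :=
  {u | (∃ y, u = true :: y ∧ y ∈ B) ∨ (∃ y, u = false :: y ∧ y ∉ B)}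

theorem mem_sgn_true {B : Set (List Bool)} {y : List Bool} : true :: y ∈ sgn B ↔ y ∈ B := by
  unfold sgn
  simp

theorem mem_sgn_false {B : Set (List Bool)} {y : List Bool} : false :: y ∈ sgn B ↔ y ∉ B := by
  unfold sgn
  simp

theorem isFP_nf {A : Oracle} {b0 b1 : List Bool} {Q H : List Bool → List Bool} (hQ : IsFP A Q)
    (hH : IsFP A H) : IsFP A (nf b0 b1 Q H) := by
  have h1 : IsFP A (fun x => H (pairBits x [true])) :=
    IsFP.comp hH (IsFP.of_poly (H622R2.poly_pairBits Poly.id (NPC.Poly.const _)))
  have h2 : IsFP A (fun x => H (pairBits x [false])) :=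
    IsFP.comp hH (IsFP.of_poly (H622R2.poly_pairBits Poly.id (NPC.Poly.const _)))
  have h3 := IsFP.pair (IsFP.pair h1 h2) hQ
  have h4 : Poly (fun t : List Bool => if (unpair (unpair t).1).1 = [true] then
      (if (unpair (unpair t).1).2 = [true] then true :: b1 else true :: (unpair t).2)
      else (if (unpair (unpair t).1).2 = [true] then false :: (unpair t).2 else true :: b0)) := by
    have g1 : Poly (fun t : List Bool => unpair (unpair t).1) :=
      poly_unpair.comp (Poly.fst poly_unpair)
    have g2 : Poly (fun t : List Bool => (unpair t).2) := Poly.snd poly_unpair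
    exact Poly.ite (Poly.decide_eq (Poly.fst g1) (NPC.Poly.const _))
      (Poly.ite (Poly.decide_eq (Poly.snd g1) (NPC.Poly.const _)) (NPC.Poly.const _)
        (Poly.cons (NPC.Poly.const true) g2))
      (Poly.ite (Poly.decide_eq (Poly.snd g1) (NPC.Poly.const _))
        (Poly.cons (NPC.Poly.const false) g2) (NPC.Poly.const _))
  have h5 := IsFP.comp (IsFP.of_poly (A := A) h4) h3
  simp only [unpair_pairBits] at h5
  exact h5

theorem nf_spec {L B : Set (List Bool)} {b0 b1 : List Bool} (h0 : b0 ∉ B)
    (h1 : b1 ∈ B) {Q H : List Bool → List Bool}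
    (hR : ∀ x, x ∈ L ↔ H (pairBits x (chi B (Q x))) = [true]) (x : List Bool) :
    x ∈ L ↔ nf b0 b1 Q H x ∈ sgn B := by
  rw [hR]
  unfold nf chi
  by_cases hq : Q x ∈ B <;> by_cases ht : H (pairBits x [true]) = [true] <;>
    by_cases hf : H (pairBits x [false]) = [true] <;>
    simp [hq, ht, hf, mem_sgn_true, mem_sgn_false, h0, h1]

theorem nf_cases (b0 b1 : List Bool) (Q H : List Bool → List Bool) (x : List Bool) :
    (∃ y, nf b0 b1 Q H x = true :: y) ∨ ∃ y, nf b0 b1 Q H x = false :: y := by
  unfold nf
  split_ifs <;> simp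

/-- If the answers of the reduction are right and the oracle is good, the answer for the secret
seed is positive. -/
theorem positive {A : Oracle} {M V : Alg} {p : Polynomial ℕ} {F v : List Bool → List Bool}
    (hF : ∀ x, M.out A x = some (F x)) (hV : ∀ x, V.out A x = some (v x))
    {L B : Set (List Bool)}
    (hB : ∀ y, y ∈ B ↔ ∃ w : List Bool, w.length ≤ p.eval y.length ∧ v (pairBits y w) = [true])
    (hR : ∀ x, x ∈ DL A L ↔ F x ∈ sgn B) {z : List Bool} (hN : A ∉ NB M V p z) :
    ¬ ∃ y, hz (MM M V p) A F z = false :: y := by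
  have hF' : ∀ x, (MM M V p).out A x = some (F x) := fun x => by
    unfold MM
    rw [lng_out]
    exact hF x
  have hP : ∀ u : List Bool, u.length = 4 * kk z.length → ∀ y, F (pairBits z u) = false :: y →
      ((PP (MM M V p) V p z u A).isSome = true ↔ y ∈ B) := by
    intro u hu y hy
    rw [PP_isSome, hB]
    constructor
    · rintro ⟨-, ⟨y', w⟩, h1, h2, h3⟩
      rw [hF', Option.some.injEq, hy] at h1
      simp only [List.cons.injEq, true_and] at h1
      subst h1
      refine ⟨w, h2, ?_⟩
      rw [hV, Option.some.injEq] at h3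
      exact h3
    · rintro ⟨w, h2, h3⟩
      refine ⟨hu, (y, w), ?_, h2, ?_⟩
      · rw [hF', hy]
      · rw [hV]
        exact congrArg some h3
  rintro ⟨y, hy⟩
  apply hN
  refine ⟨?_, ?_, ?_⟩
  · show (TS (MM M V p) z (gz (cc (MM M V p)) A z)).val A = true
    rw [TS_val _ _ (length_gz _ _ _)]
    refine ⟨y, ?_⟩
    rw [hF']
    exact congrArg some hy
  · intro s hs
    by_contra hne
    have h1 : (PP (MM M V p) V p z (rd (4 * kk z.length) 1 s A) A).isSome = true :=
      Option.isSome_iff_ne_none.2 hne
    obtain ⟨-, ⟨y', w⟩, h2, -⟩ := PP_isSome.1 h1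
    rw [hF', Option.some.injEq] at h2
    rw [hP _ (length_rd _ _ _ _) _ h2] at h1
    have h3 : pairBits z (rd (4 * kk z.length) 1 s A) ∈ DL A L :=
      mem_DL.2 (Or.inr (mem_RG.2 ⟨s, hs, rfl⟩))
    rw [hR, h2] at h3
    exact mem_sgn_false.1 h3 h1
  · intro u hu hr hT
    rw [TS_val _ _ hu] at hT
    obtain ⟨y', h2⟩ := hT
    rw [hF', Option.some.injEq] at h2
    rw [hP _ hu _ h2]
    by_contra h1
    have h3 : pairBits z u ∈ DL A L := by
      rw [hR, h2]
      exact mem_sgn_false.2 h1
    rw [mem_DL] at h3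
    rcases h3 with ⟨h3, -⟩ | h3
    · obtain ⟨s', hs', h6⟩ := mem_RG.1 h3
      exact (hr s' hs').1 h6
    · obtain ⟨s', hs', h6⟩ := mem_RG.1 h3
      exact (hr s' hs').2 h6

theorem isNP_univ (A : Oracle) : IsNP A Set.univ := by
  refine ⟨fun _ => [true], 0, IsFP.of_poly (NPC.Poly.const _), fun x => ?_⟩
  simp only [Set.mem_univ, true_iff]
  exact ⟨[], by simp, trivial⟩

/-- a trivial set is not hard -/
theorem nontrivial {A : Oracle} (hA : ∀ M : Alg, Good A M) {B : Set (List Bool)}
    (hB : ∀ L, IsNP A L → Red1tt A L B) : (∃ b, b ∈ B) ∧ ∃ b, b ∉ B := by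
  have key : ∀ c : List Bool, (∀ y, chi B y = c) → False := by
    intro c hc
    have h1 : NPHardRel A {[true]} := by
      intro L hL
      obtain ⟨Q, H, -, hH, h2⟩ := hB L hL
      refine ⟨fun x => H (pairBits x c), IsFP.comp hH (IsFP.of_poly
        (H622R2.poly_pairBits Poly.id (NPC.Poly.const _))), fun x => ?_⟩
      rw [h2, hc]
      exact Iff.rfl
    obtain ⟨F, -, h3, -, h4⟩ := np_case hA h1 (isNP_univ A)
    have h5 : F [] = [true] := (h4 []).1 trivial
    have h6 : F [true] = [true] := (h4 [true]).1 trivial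
    exact absurd (h3 (h5.trans h6.symm)) (by simp)
  constructor
  · by_contra h
    push Not at h
    exact key [false] fun y => by simp [chi, h y]
  · by_contra h
    push Not at h
    exact key [true] fun y => by simp [chi, h y]

/-- Relative to a good oracle, hardness under reductions with one question implies hardness under
one-one, length-increasing reductions. -/
theorem one_question {A : Oracle} (hA : ∀ M : Alg, Good A M)
    (hN : ∀ (M V : Alg) (p : Polynomial ℕ), ∃ n0, ∀ z : List Bool, n0 ≤ z.length →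
      A ∉ NB M V p z) {B : Set (List Bool)} (hBN : IsNP A B)
    (hB : ∀ L, IsNP A L → Red1tt A L B) {L : Set (List Bool)} (hL : IsNP A L) : Red1 A L B := by
  obtain ⟨⟨b1, hb1⟩, b0, hb0⟩ := nontrivial hA hB
  obtain ⟨v, p, ⟨V, hV⟩, hBv⟩ := hBN
  set L₁ : Set (List Bool) := {z | (unpair z).1 ∈ L} with hL₁
  have h1 : IsNP A L₁ := IsNP.red ⟨fun z => (unpair z).1,
    IsFP.of_poly (Poly.fst poly_unpair), fun z => Iff.rfl⟩ hL
  have h2 : IsNP A (DL A L₁) := by
    unfold DL
    refine IsNP.union (IsNP.inter (isNP_RG A 0) ?_) (isNP_RG A 1)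
    exact IsNP.red ⟨fun z => (unpair z).1, IsFP.of_poly (Poly.fst poly_unpair),
      fun z => Iff.rfl⟩ h1
  obtain ⟨Q, H, hQ, hH, hR⟩ := hB _ h2
  have hR' := nf_spec hb0 hb1 hR
  obtain ⟨M, hM⟩ := isFP_nf (b0 := b0) (b1 := b1) hQ hH
  set F := nf b0 b1 Q H with hF
  have hM' : ∀ x, (MM M V p).out A x = some (F x) := fun x => by
    unfold MM
    rw [lng_out]
    exact hM x
  obtain ⟨n0, h0⟩ := good_spec (hA (MM M V p)) hM' hR'
  obtain ⟨n1, h3⟩ := hN M V p
  have hl : ∀ x : List Bool, max n0 n1 ≤
      (pairBits x (List.replicate (max n0 n1) true)).length := by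
    intro x
    rw [length_pairBits, List.length_replicate]
    omega
  have hpos : ∀ x : List Bool, ∃ y, hz (MM M V p) A F
      (pairBits x (List.replicate (max n0 n1) true)) = true :: y := by
    intro x
    have h4 := positive hM hV hBv hR' (h3 _ ((le_max_right _ _).trans (hl x)))
    rcases nf_cases b0 b1 Q H (pairBits (pairBits x (List.replicate (max n0 n1) true))
      (gz (cc (MM M V p)) A (pairBits x (List.replicate (max n0 n1) true)))) with h5 | h5
    · exact h5
    · exact absurd h5 h4
  refine ⟨fun x => (hz (MM M V p) A F (pairBits x (List.replicate (max n0 n1) true))).tail,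
    IsFP.comp (IsFP.of_poly (Poly.tail Poly.id)) (isFP_patched (MM M V p) ⟨MM M V p, hM'⟩ _),
    ?_, ?_, ?_⟩
  · intro x x' h
    by_contra hne
    have h4 : pairBits x (List.replicate (max n0 n1) true) ≠
        pairBits x' (List.replicate (max n0 n1) true) := fun h2 => hne (pairBits_inj' h2).1
    obtain ⟨y, hy⟩ := hpos x
    obtain ⟨y', hy'⟩ := hpos x'
    have h5 : hz (MM M V p) A F (pairBits x (List.replicate (max n0 n1) true)) =
        hz (MM M V p) A F (pairBits x' (List.replicate (max n0 n1) true)) := by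
      simp only [hy, hy', List.tail_cons] at h
      rw [hy, hy', h]
    rcases le_total (pairBits x (List.replicate (max n0 n1) true)).length
      (pairBits x' (List.replicate (max n0 n1) true)).length with h6 | h6
    · exact (h0 _ ((le_max_left _ _).trans (hl x'))).2.2 _ h6 h4 h5
    · exact (h0 _ ((le_max_left _ _).trans (hl x))).2.2 _ h6 h4.symm h5.symm
  · intro x
    have h4 := (h0 _ ((le_max_left _ _).trans (hl x))).2.1
    obtain ⟨y, hy⟩ := hpos x
    rw [length_pairBits, hy, List.length_cons] at h4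
    simp only [hy, List.tail_cons]
    omega
  · intro x
    have h4 := (h0 _ ((le_max_left _ _).trans (hl x))).1
    obtain ⟨y, hy⟩ := hpos x
    simp only [hy, List.tail_cons]
    rw [hy, mem_sgn_true] at h4
    rw [← h4]
    simp only [hL₁, Set.mem_ofPred_eq, unpair_pairBits]

end Pool.Agent.H673R2.OneTT
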