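import Pool.Agent.H673R2.OneTT.Sep4
import Pool.Agent.H673R2.OneTT.FinN

/-!
# The set is in `NP`, and complete under reductions with two questions
-/

namespace Pool.Agent.H673R2.OneTT

open MeasureTheory Pool.Agent.NPC Pool.Agent.H628R3.RO Pool.Agent.H673R2.OneOne

theorem isNP_Hs (A : Oracle) (c : ℕ) : IsNP A (Hs c A) := by
  refine isNP_of_tt A _
    (Q := fun p => asks p.1.length c (p.1 ++ p.2))
    (T := fun p => decide (p.1.2.length = p.1.1.length) && p.2.all id) ?_ ?_
    Polynomial.X fun x => ?_
  · exact p_asks (UPoly.length (Poly.fst Poly.id)) (UPoly.const c)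
      (Poly.append (Poly.fst Poly.id) (Poly.snd Poly.id))
  · have h1 : Poly (fun p : (List Bool × List Bool) × List Bool => p.1.1) :=
      Poly.fst (Poly.fst Poly.id)
    have h2 : Poly (fun p : (List Bool × List Bool) × List Bool => p.1.2) :=
      Poly.snd (Poly.fst Poly.id)
    exact Poly.and (Poly.decide_eq (Poly.length h2) (Poly.length h1)) (p_all_id (Poly.snd Poly.id))
  · simp only [Bool.and_eq_true, decide_eq_true_eq, asks_all, Polynomial.eval_X]
    unfold Hs
    simp only [Set.mem_ofPred_eq]
    constructor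
    · rintro ⟨w, hw, h⟩
      exact ⟨w, hw.le, hw, h⟩
    · rintro ⟨w, -, hw, h⟩
      exact ⟨w, hw, h⟩

theorem isNP_of_poly (A : Oracle) {b : List Bool → Bool} (hb : Poly b) :
    IsNP A {x | b x = true} := by
  refine ⟨fun t => [b (unpair t).1], 0, IsFP.of_poly (Poly.cons (hb.comp (Poly.fst poly_unpair))
    (NPC.Poly.const _)), fun x => ?_⟩
  simp only [Set.mem_ofPred_eq, Polynomial.eval_zero, Nat.le_zero, List.length_eq_zero_iff,
    exists_eq_left, unpair_pairBits, List.cons.injEq, and_true]

theorem isNP_DD (A : Oracle) : IsNP A (DD A) := by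
  have t1 : Poly (fun v : List Bool => v.tail) := Poly.tail Poly.id
  have t2 : Poly (fun v : List Bool => v.tail.tail) := Poly.tail t1
  have h0 : IsNP A {v | decide (v.head? = some false) = true} :=
    isNP_of_poly A (Poly.decide_eq (Poly.head? Poly.id) (NPC.Poly.const _))
  have h1 : IsNP A {v | (decide (v.head? = some true) && decide (v.tail.head? = some false)) =
      true} := isNP_of_poly A (Poly.and (Poly.decide_eq (Poly.head? Poly.id)
        (NPC.Poly.const _)) (Poly.decide_eq (Poly.head? t1) (NPC.Poly.const _)))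
  have h2 : IsNP A {v | (decide (v.head? = some true) && decide (v.tail.head? = some true)) =
      true} := isNP_of_poly A (Poly.and (Poly.decide_eq (Poly.head? Poly.id)
        (NPC.Poly.const _)) (Poly.decide_eq (Poly.head? t1) (NPC.Poly.const _)))
  have g1 : IsNP A {v | v.tail ∈ Hs 6 A} :=
    IsNP.red ⟨fun v => v.tail, IsFP.of_poly t1, fun _ => Iff.rfl⟩ (isNP_Hs A 6)
  have g2 : IsNP A {v | v.tail.tail ∈ Hs 6 A} :=
    IsNP.red ⟨fun v => v.tail.tail, IsFP.of_poly t2, fun _ => Iff.rfl⟩ (isNP_Hs A 6)
  have g3 : IsNP A {v | v.tail.tail ∈ KA A} :=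
    IsNP.red ⟨fun v => v.tail.tail, IsFP.of_poly t2, fun _ => Iff.rfl⟩ (isNP_KA A)
  have h := IsNP.union (IsNP.inter h0 g1) (IsNP.union (IsNP.inter h1 (IsNP.inter g2 g3))
    (IsNP.inter h2 (IsNP.union g2 g3)))
  have he : DD A = {v | decide (v.head? = some false) = true} ∩ {v | v.tail ∈ Hs 6 A} ∪
      ({v | (decide (v.head? = some true) && decide (v.tail.head? = some false)) = true} ∩
        ({v | v.tail.tail ∈ Hs 6 A} ∩ {v | v.tail.tail ∈ KA A}) ∪
      {v | (decide (v.head? = some true) && decide (v.tail.head? = some true)) = true} ∩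
        ({v | v.tail.tail ∈ Hs 6 A} ∪ {v | v.tail.tail ∈ KA A})) := by
    ext v
    unfold DD
    rcases v with _ | ⟨b, v⟩
    · simp
    · rcases v with _ | ⟨b', v⟩
      · cases b <;> simp
      · cases b <;> cases b' <;> simp
  rw [he]
  exact h

/-- Reductions with two adaptive questions: `Q₁ x` is the first question, `Q₂` computes the second
one from the input and the first answer, `H` evaluates the answers. -/
def Red2T (A : Oracle) (L B : Set (List Bool)) : Prop :=
  ∃ Q₁ Q₂ H : List Bool → List Bool, IsFP A Q₁ ∧ IsFP A Q₂ ∧ IsFP A H ∧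
    ∀ x, x ∈ L ↔ H (pairBits x (chi B (Q₁ x) ++ chi B (Q₂ (pairBits x (chi B (Q₁ x)))))) = [true]

theorem red2T_DD {A : Oracle} {L : Set (List Bool)} (hL : IsNP A L) : Red2T A L (DD A) := by
  obtain ⟨F, hF, hFL⟩ := hard_KA A L hL
  refine ⟨fun x => false :: F x, fun y => if (unpair y).2 = [true] then
    true :: false :: F (unpair y).1 else true :: true :: F (unpair y).1,
    fun y => (unpair y).2.tail, ?_, ?_, IsFP.of_poly (Poly.tail (Poly.snd poly_unpair)),
    fun x => ?_⟩
  · exact IsFP.comp (IsFP.of_poly (Poly.cons (NPC.Poly.const false) Poly.id)) hF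
  · have h1 : IsFP A (fun y => pairBits (F (unpair y).1) y) :=
      IsFP.pair (IsFP.comp hF (IsFP.of_poly (Poly.fst poly_unpair))) (IsFP.of_poly Poly.id)
    have h2 : Poly (fun t : List Bool => if (unpair (unpair t).2).2 = [true] then
        true :: false :: (unpair t).1 else true :: true :: (unpair t).1) := by
      have g1 : Poly (fun t : List Bool => (unpair t).1) := Poly.fst poly_unpair
      have g2 : Poly (fun t : List Bool => (unpair (unpair t).2).2) :=
        Poly.snd (poly_unpair.comp (Poly.snd poly_unpair))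
      exact Poly.ite (Poly.decide_eq g2 (NPC.Poly.const _))
        (Poly.cons (NPC.Poly.const true) (Poly.cons (NPC.Poly.const false) g1))
        (Poly.cons (NPC.Poly.const true) (Poly.cons (NPC.Poly.const true) g1))
    have h3 := IsFP.comp (IsFP.of_poly (A := A) h2) h1
    simp only [unpair_pairBits] at h3
    exact h3
  · rw [hFL]
    simp only [unpair_pairBits]
    unfold chi
    by_cases h1 : F x ∈ Hs 6 A <;> by_cases h2 : F x ∈ KA A <;> simp [DD, h1, h2]

/-! ### Turing reductions -/

open Classical in
/-- the oracle which answers questions to `A` (first bit `0`) and to `B` (first bit `1`) -/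
noncomputable def join (A : Oracle) (B : Set (List Bool)) : Oracle
  | [] => false
  | false :: y => A y
  | true :: y => decide (y ∈ B)

/-- Turing reductions relative to `A`: algorithms which may ask questions to `A` and `B`. -/
def RedT (A : Oracle) (L B : Set (List Bool)) : Prop :=
  ∃ F : List Bool → List Bool, IsFP (join A B) F ∧ ∀ x, x ∈ L ↔ F x = [true]

/-- questions to `A` as questions to the join -/
def liftD (D : List Bool → List Bool) (v : List Bool) : List Bool :=
  if (D v).head? = some false then false :: D v else D v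

theorem isFP_lift {A : Oracle} (B : Set (List Bool)) {F : List Bool → List Bool}
    (hF : IsFP A F) : IsFP (join A B) F := by
  obtain ⟨M, hM⟩ := hF
  have hD := Pool.Agent.H622R2.poly_of_polyTime M.poly
  refine ⟨⟨liftD M.D, H622R2.polyTime_of_poly_list (Poly.ite (Poly.decide_eq (Poly.head? hD)
    (NPC.Poly.const _)) (Poly.cons (NPC.Poly.const false) hD) hD), M.p⟩, fun x => ?_⟩
  rw [← hM x]
  unfold Alg.out
  simp only
  generalize M.p.eval x.length = n
  generalize ([] : List Bool) = a
  induction n generalizing a with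
  | zero => rfl
  | succ n ih =>
    rw [Alg.run, Alg.run]
    simp only [liftD]
    rcases hq : M.D (pairBits x a) with _ | ⟨c, q⟩
    · simp
    · cases c with
      | true => simp
      | false =>
        simp only [List.head?_cons, if_true]
        exact ih _

theorem isFP_chi {A : Oracle} {B : Set (List Bool)} {F : List Bool → List Bool}
    (hF : IsFP (join A B) F) : IsFP (join A B) (fun x => chi B (F x)) := by
  have h1 : IsFP (join A B) (chi B) := by
    have h := IsFP.tt (A := join A B) (Q := fun x => [true :: x]) (H := fun p => p.2)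
      (Poly.cons (Poly.cons (NPC.Poly.const true) Poly.id) (NPC.Poly.const [])) (Poly.snd Poly.id)
    exact h
  exact IsFP.comp h1 hF

theorem RedT.of_two {A : Oracle} {L B : Set (List Bool)} (h : Red2T A L B) : RedT A L B := by
  obtain ⟨Q₁, Q₂, H, h1, h2, h3, h4⟩ := h
  refine ⟨_, ?_, h4⟩
  have g1 := isFP_chi (isFP_lift B h1)
  have g2 : IsFP (join A B) (fun x => pairBits x (chi B (Q₁ x))) :=
    IsFP.pair (IsFP.of_poly Poly.id) g1
  have g3 : IsFP (join A B) (fun x => chi B (Q₂ (pairBits x (chi B (Q₁ x))))) :=
    isFP_chi (IsFP.comp (isFP_lift B h2) g2)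
  have g4 : IsFP (join A B) (fun x => pairBits (chi B (Q₁ x))
      (chi B (Q₂ (pairBits x (chi B (Q₁ x)))))) := IsFP.pair g1 g3
  have g5 : IsFP (join A B) (fun x => chi B (Q₁ x) ++
      chi B (Q₂ (pairBits x (chi B (Q₁ x))))) := by
    have g6 : Poly (fun t : List Bool => (unpair t).1 ++ (unpair t).2) :=
      Poly.append (Poly.fst poly_unpair) (Poly.snd poly_unpair)
    have g7 := IsFP.comp (IsFP.of_poly (A := join A B) g6) g4
    simp only [unpair_pairBits] at g7
    exact g7
  exact IsFP.comp (isFP_lift B h3) (IsFP.pair (IsFP.of_poly Poly.id) g5)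

end Pool.Agent.H673R2.OneTT
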