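import Pool.Agent.H673R2.OneTT.Neg
import Pool.Agent.H673R2.OneOne.Gen

/-!
# Negative answers happen only finitely often
-/

namespace Pool.Agent.H673R2.OneTT

open MeasureTheory Pool.Agent.NPC Pool.Agent.H628R3.RO Pool.Agent.H673R2.OneOne

/-! ### An algorithm which first asks a long question -/

/-- the next action: first a question of length `d n`, then as before -/
def lngD (D : List Bool → List Bool) (d : Polynomial ℕ) (v : List Bool) : List Bool :=
  if (unpair v).2 = [] then false :: List.replicate (d.eval (unpair v).1.length) true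
  else D (pairBits (unpair v).1 (unpair v).2.tail)

theorem poly_lngD {D : List Bool → List Bool} (hD : Poly D) (d : Polynomial ℕ) :
    Poly (lngD D d) := by
  unfold lngD
  have h1 : Poly (fun v : List Bool => (unpair v).1) := Poly.fst poly_unpair
  have h2 : Poly (fun v : List Bool => (unpair v).2) := Poly.snd poly_unpair
  exact Poly.ite (Poly.decide_eq h2 (NPC.Poly.const []))
    (Poly.cons (NPC.Poly.const false) (p_replicate (UPoly.eval (UPoly.length h1) d) true))
    (hD.comp (H622R2.poly_pairBits h1 (Poly.tail h2)))

/-- the algorithm which first asks a question of length `d n` -/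
noncomputable def lng (M : Alg) (d : Polynomial ℕ) : Alg where
  D := lngD M.D d
  poly := H622R2.polyTime_of_poly_list (poly_lngD (Pool.Agent.H622R2.poly_of_polyTime M.poly) d)
  p := M.p + 1

theorem lng_run (M : Alg) (d : Polynomial ℕ) (A : Oracle) (x : List Bool) (b : Bool) :
    ∀ (n : ℕ) (a : List Bool), (lng M d).run A x n (b :: a) = M.run A x n a := by
  intro n
  induction n with
  | zero => intro a; rfl
  | succ n ih =>
    intro a
    have h1 : (lng M d).D (pairBits x (b :: a)) = M.D (pairBits x a) := by
      show lngD M.D d (pairBits x (b :: a)) = _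
      unfold lngD
      rw [unpair_pairBits]
      simp
    rw [Alg.run, Alg.run, h1]
    rcases M.D (pairBits x a) with _ | ⟨c, q⟩
    · rfl
    · cases c with
      | true => rfl
      | false =>
        simp only
        rw [List.cons_append]
        exact ih _

theorem lng_first (M : Alg) (d : Polynomial ℕ) (x : List Bool) :
    (lng M d).D (pairBits x []) = false :: List.replicate (d.eval x.length) true := by
  show lngD M.D d (pairBits x []) = _
  unfold lngD
  rw [unpair_pairBits]
  simp

theorem lng_out (M : Alg) (d : Polynomial ℕ) (A : Oracle) (x : List Bool) :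
    (lng M d).out A x = M.out A x := by
  have h1 : (lng M d).p.eval x.length = M.p.eval x.length + 1 := by
    show (M.p + 1).eval x.length = _
    simp
  unfold Alg.out
  rw [h1, Alg.run, lng_first]
  simp only
  exact lng_run M d A x _ _ []

theorem lng_qb (M : Alg) (d : Polynomial ℕ) (x : List Bool) :
    d.eval x.length ≤ (qb (lng M d)).eval x.length := by
  have h1 : (lng M d).p.eval x.length = M.p.eval x.length + 1 := by
    show (M.p + 1).eval x.length = _
    simp
  have h2 : List.replicate (d.eval x.length) true ∈
      (QA.out (lng M d) x).qs (fun _ => false) := by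
    unfold QA.out
    rw [h1]
    simp only [QA.run, lng_first]
    exact Finset.mem_union_left _ (Finset.mem_singleton_self _)
  have h3 := qb_spec (lng M d) x _ _ h2
  rwa [List.length_replicate] at h3

/-! ### The objects -/

/-- the answer is negative -/
def isNeg : Option (List Bool) → Bool
  | some (false :: _) => true
  | _ => false

theorem isNeg_iff {o : Option (List Bool)} : isNeg o = true ↔ ∃ y, o = some (false :: y) := by
  unfold isNeg
  split
  · simp
  · rename_i h
    simp only [Bool.false_eq_true, false_iff]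
    rintro ⟨y, rfl⟩
    exact h y rfl

/-- the test whether the answer for `v` is negative -/
def TS (M : Alg) (z v : List Bool) : QA Bool :=
  if v.length = 4 * kk z.length then (QA.out M (pairBits z v)).map isNeg else QA.pure false

theorem TS_val (M : Alg) (z : List Bool) {v : List Bool} (hv : v.length = 4 * kk z.length)
    (A : Oracle) : (TS M z v).val A = true ↔ ∃ y, M.out A (pairBits z v) = some (false :: y) := by
  unfold TS
  rw [if_pos hv]
  show isNeg ((QA.out M (pairBits z v)).val A) = true ↔ _
  rw [QA.out_val, isNeg_iff]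

/-- an accepting computation for the string asked about -/
def Prd (M V : Alg) (p : Polynomial ℕ) (z : List Bool) (A : Oracle) (v : List Bool)
    (y : List Bool × List Bool) : Prop :=
  M.out A (pairBits z v) = some (false :: y.1) ∧ y.2.length ≤ p.eval y.1.length ∧
    V.out A (pairBits y.1 y.2) = some [true]

open Classical in
/-- the questions of an accepting computation for the string asked about -/
noncomputable def PP (M V : Alg) (p : Polynomial ℕ) (z : List Bool) : Prf := fun v A =>
  if v.length = 4 * kk z.length ∧ ∃ y, Prd M V p z A v y then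
    some ((QA.out M (pairBits z v)).qs A ∪
      (QA.out V (pairBits (Classical.epsilon (Prd M V p z A v)).1
        (Classical.epsilon (Prd M V p z A v)).2)).qs A)
  else none

theorem PP_isSome {M V : Alg} {p : Polynomial ℕ} {z v : List Bool} {A : Oracle} :
    (PP M V p z v A).isSome = true ↔ v.length = 4 * kk z.length ∧ ∃ y, Prd M V p z A v y := by
  unfold PP
  split_ifs with h
  · simp only [Option.isSome_some, true_iff]
    exact h
  · simp only [Option.isSome_none, Bool.false_eq_true, false_iff]
    exact h

/-- a bound for the length of the inputs of `V` -/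
noncomputable def bl (M : Alg) (p : Polynomial ℕ) : Polynomial ℕ :=
  2 * (Alg.out_length M).choose + 1 + p.comp (Alg.out_length M).choose

theorem bl_spec {M : Alg} {p : Polynomial ℕ} {x y w : List Bool} {A : Oracle} {b : Bool}
    (h : M.out A x = some (b :: y)) (hw : w.length ≤ p.eval y.length) :
    (pairBits y w).length ≤ (bl M p).eval x.length := by
  have h1 := (Alg.out_length M).choose_spec A x _ h
  rw [List.length_cons] at h1
  have h2 : y.length ≤ ((Alg.out_length M).choose).eval x.length := by omega
  have h3 := eval_mono p h2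
  rw [length_pairBits]
  unfold bl
  simp only [Polynomial.eval_add, Polynomial.eval_mul, Polynomial.eval_comp,
    Polynomial.eval_one, Polynomial.eval_ofNat]
  omega

/-- the algorithm `M`, with an additional question which is longer than those of `V` -/
noncomputable def MM (M V : Alg) (p : Polynomial ℕ) : Alg := lng M ((qb V).comp (bl M p))

theorem qs_V {M V : Alg} {p : Polynomial ℕ} {z v y w : List Bool} {A A' : Oracle}
    (hv : v.length = 4 * kk z.length) (h : (MM M V p).out A (pairBits z v) = some (false :: y))
    (hw : w.length ≤ p.eval y.length) : ∀ x ∈ (QA.out V (pairBits y w)).qs A',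
      x.length ≤ (qb (MM M V p)).eval (18 * z.length + 17) := by
  intro x hx
  have h1 := qb_spec V _ _ _ hx
  unfold MM at h
  rw [lng_out] at h
  have h2 := eval_mono (qb V) (bl_spec (b := false) h hw)
  have h3 := lng_qb M ((qb V).comp (bl M p)) (pairBits z v)
  rw [Polynomial.eval_comp] at h3
  rw [length_test hv] at h2 h3
  exact h1.trans (h2.trans h3)

theorem qs_M {M V : Alg} {p : Polynomial ℕ} {z v : List Bool} {A' : Oracle}
    (hv : v.length = 4 * kk z.length) : ∀ x ∈ (QA.out (MM M V p) (pairBits z v)).qs A',
      x.length ≤ (qb (MM M V p)).eval (18 * z.length + 17) := by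
  intro x hx
  have h1 := qb_spec (MM M V p) _ _ _ hx
  rwa [length_test hv] at h1

/-- the output of an oracle algorithm depends only on its questions -/
theorem out_congr {M : Alg} {x : List Bool} {A A' : Oracle}
    (h : ∀ y ∈ (QA.out M x).qs A, A' y = A y) : M.out A' x = M.out A x ∧
      (QA.out M x).qs A' = (QA.out M x).qs A := by
  have := (QA.out M x).loc A A' h
  rwa [QA.out_val, QA.out_val] at this

theorem hyp_congr {k q N : ℕ} {κf κd : Cand} {T T' : List Bool → QA Bool}
    (H : Hyp k q N κf κd T) (h : ∀ v A, (T' v).qs A ⊆ (T v).qs A) : Hyp k q N κf κd T' where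
  card := fun v A => (Finset.card_le_card (h v A)).trans (H.card v A)
  len := fun v A x hx => H.len v A x (h v A hx)
  hd := fun v A x hx => H.hd v A x (h v A hx)
  hf := fun v A x hx => H.hf v A x (h v A hx)
  d2 := H.d2
  f2 := H.f2
  ne := H.ne
  near := H.near
  dummy := H.dummy

theorem hyp_TS (M : Alg) (z : List Bool) :
    Hyp (kk z.length) (M.p.eval (18 * z.length + 17) + 0) (NN M z.length)
      (cc M z.length, z) (cc M z.length + 1, z) (TS M z) := by
  refine hyp_congr (hyp_const M z []) fun v A => ?_
  unfold TS TT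
  split_ifs with hv
  · exact Finset.subset_union_left
  · exact Finset.Subset.refl _

/-- the number of questions -/
noncomputable def q' (M V : Alg) (p : Polynomial ℕ) (n : ℕ) : ℕ :=
  (MM M V p).p.eval (18 * n + 17) + V.p.eval ((bl M p).eval (18 * n + 17))

theorem hypN_PP (M V : Alg) (p : Polynomial ℕ) (z : List Bool) :
    HypN (kk z.length) ((MM M V p).p.eval (18 * z.length + 17) + 0) (q' M V p z.length)
      (NN (MM M V p) z.length) ((qb (MM M V p)).eval (18 * z.length + 17))
      (cc (MM M V p) z.length, z) (cc (MM M V p) z.length + 1, z) (TS (MM M V p) z)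
      (PP (MM M V p) V p z) where
  base := hyp_TS _ z
  locP := by
    intro A A' h v
    have hP : v.length = 4 * kk z.length →
        Prd (MM M V p) V p z A v = Prd (MM M V p) V p z A' v := by
      intro hv
      funext y
      have h1 := (out_congr (M := MM M V p) (x := pairBits z v) (A := A) (A' := A')
        fun x hx => (h x (qs_M hv x hx)).symm).1
      apply propext
      unfold Prd
      rw [h1]
      refine and_congr_right fun h2 => and_congr_right fun h3 => ?_
      have h4 := (out_congr (M := V) (x := pairBits y.1 y.2) (A := A) (A' := A')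
        fun x hx => (h x (qs_V hv h2 h3 x hx)).symm).1
      rw [h4]
    unfold PP
    by_cases hv : v.length = 4 * kk z.length
    · rw [hP hv]
      by_cases hE : ∃ y, Prd (MM M V p) V p z A' v y
      · rw [if_pos ⟨hv, hE⟩, if_pos ⟨hv, hE⟩]
        have h5 := Classical.epsilon_spec hE
        have h6 := (out_congr (M := MM M V p) (x := pairBits z v) (A := A') (A' := A)
          fun x hx => h x (qs_M hv x hx)).2
        have h7 := (out_congr (M := V) (x := pairBits
          (Classical.epsilon (Prd (MM M V p) V p z A' v)).1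
          (Classical.epsilon (Prd (MM M V p) V p z A' v)).2) (A := A') (A' := A)
          fun x hx => h x (qs_V hv h5.1 h5.2.1 x hx)).2
        rw [h6, h7]
      · rw [if_neg fun h => hE h.2, if_neg fun h => hE h.2]
    · rw [if_neg fun h => hv h.1, if_neg fun h => hv h.1]
  mN := by
    unfold NN cc
    omega
  mf := by
    show _ ≤ cc (MM M V p) z.length
    unfold cc
    omega
  md := by
    show _ ≤ cc (MM M V p) z.length + 1
    unfold cc
    omega
  cardP := by
    intro v A Q h
    unfold PP at h
    split_ifs at h with h1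
    rw [Option.some.injEq] at h
    subst h
    obtain ⟨hv, hE⟩ := h1
    have h5 := Classical.epsilon_spec hE
    refine (Finset.card_union_le _ _).trans ?_
    unfold q'
    apply Nat.add_le_add
    · have := QA.out_card (MM M V p) (pairBits z v) A
      rwa [length_test hv] at this
    · refine (QA.out_card V _ A).trans (eval_mono _ ?_)
      have h6 := h5.1
      unfold MM at h6
      rw [lng_out] at h6
      have h7 := bl_spec (b := false) h6 h5.2.1
      rw [length_test hv] at h7
      exact h7
  stayP := by
    intro v A A' Q h hA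
    unfold PP at h
    split_ifs at h with h1
    rw [Option.some.injEq] at h
    subst h
    obtain ⟨hv, hE⟩ := h1
    have h5 := Classical.epsilon_spec hE
    rw [PP_isSome]
    refine ⟨hv, Classical.epsilon (Prd (MM M V p) V p z A v), ?_, h5.2.1, ?_⟩
    · rw [(out_congr fun x hx => hA x (Finset.mem_union_left _ hx)).1]
      exact h5.1
    · rw [(out_congr fun x hx => hA x (Finset.mem_union_right _ hx)).1]
      exact h5.2.2
  lenP := by
    intro v A Q h x hx
    unfold PP at h
    split_ifs at h with h1
    rw [Option.some.injEq] at h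
    subst h
    obtain ⟨hv, hE⟩ := h1
    have h5 := Classical.epsilon_spec hE
    rcases Finset.mem_union.1 hx with hx | hx
    · exact qs_M hv x hx
    · exact qs_V hv h5.1 h5.2.1 x hx

/-- the bad event for `z` -/
def NB (M V : Alg) (p : Polynomial ℕ) (z : List Bool) : Set Oracle :=
  NegBad (kk z.length) (cc (MM M V p) z.length, z) (TS (MM M V p) z) (PP (MM M V p) V p z)

/-- the number of questions -/
noncomputable def qN (M V : Alg) (p : Polynomial ℕ) (n : ℕ) : ℕ :=
  2 * (MM M V p).p.eval (18 * n + 17) + 2 * q' M V p n + 4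

theorem prob_NB (M V : Alg) (p : Polynomial ℕ) (z : List Bool) :
    prob (NB M V p z) ≤ qN M V p z.length * (1 / 2) ^ kk z.length := by
  refine (hypN_PP M V p z).prob_neg.trans ?_
  apply mul_le_mul_of_nonneg_right _ (by positivity)
  unfold qN
  push_cast
  linarith

theorem prob_NBs (M V : Alg) (p : Polynomial ℕ) (n : ℕ) :
    prob (⋃ z ∈ SS n, NB M V p z) ≤ qN M V p n * (1 / 2) ^ n * (1 / 2) ^ n := by
  refine (prob_biUnion_le' _ _).trans ?_
  have h1 : ∀ z ∈ SS n, prob (NB M V p z) ≤ qN M V p n * (1 / 2) ^ kk n := by
    intro z hz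
    rw [mem_SS] at hz
    have := prob_NB M V p z
    rwa [hz] at this
  refine (Finset.sum_le_sum h1).trans ?_
  rw [Finset.sum_const, card_SS, nsmul_eq_mul]
  push_cast
  have h2 : (2 : ℝ) ^ n * (qN M V p n * (1 / 2) ^ kk n) =
      qN M V p n * (1 / 2) ^ n * (1 / 2) ^ n * ((1 / 2) ^ n * (1 / 16)) := by
    unfold kk
    have h13 : (1 / 2 : ℝ) ^ (4 * n + 4) = ((1 / 2) ^ n * (1 / 2) ^ n) * ((1 / 2) ^ n *
      (1 / 2) ^ n) * (1 / 16) := by
      rw [pow_add, show 4 * n = n + n + (n + n) by ring, pow_add, pow_add]
      norm_num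
    have h14 : (2 : ℝ) ^ n * (1 / 2) ^ n = 1 := by
      rw [← mul_pow]
      norm_num
    rw [h13]
    calc (2 : ℝ) ^ n * (qN M V p n * (((1 / 2) ^ n * (1 / 2) ^ n) * ((1 / 2) ^ n *
      (1 / 2) ^ n) * (1 / 16))) = ((2 : ℝ) ^ n * (1 / 2) ^ n) * (qN M V p n * (1 / 2) ^ n *
        (1 / 2) ^ n * ((1 / 2) ^ n * (1 / 16))) := by ring
      _ = _ := by rw [h14, one_mul]
  rw [h2]
  have h3 : (1 / 2 : ℝ) ^ n * (1 / 16) ≤ 1 := by
    have h8 : (1 / 2 : ℝ) ^ n ≤ 1 := pow_le_one₀ (by norm_num) (by norm_num)
    linarith
  exact mul_le_of_le_one_right (by positivity) h3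

theorem qN_poly (M V : Alg) (p : Polynomial ℕ) : ∃ n0, ∀ n ≥ n0, qN M V p n ≤ 2 ^ n := by
  obtain ⟨n0, h⟩ := mul_poly_le_two_pow' (2 * (MM M V p).p.comp (18 * Polynomial.X + 17) +
    2 * ((MM M V p).p.comp (18 * Polynomial.X + 17) +
      V.p.comp ((bl M p).comp (18 * Polynomial.X + 17))) + 4 : Polynomial ℕ) 1
  refine ⟨n0, fun n hn => ?_⟩
  have h1 := h n hn
  simp only [Polynomial.eval_add, Polynomial.eval_mul, Polynomial.eval_comp, Polynomial.eval_X,
    Polynomial.eval_ofNat, one_mul] at h1
  unfold qN q'
  exact h1

theorem freq_zero' (M V : Alg) (p : Polynomial ℕ) :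
    randomOracle {A | ∃ᶠ n in Filter.atTop, A ∈ ⋃ z ∈ SS n, NB M V p z} = 0 := by
  obtain ⟨n0, h0⟩ := qN_poly M V p
  apply borel_cantelli (fun n => ⋃ z ∈ SS n, NB M V p z) (C := n0 + 2)
  intro n
  have h1 : ∀ i, prob (⋃ z ∈ SS i, NB M V p z) ≤ (if i < n0 then 1 else 0) + (1 / 2) ^ i := by
    intro i
    split_ifs with hi
    · have h2 : prob (⋃ z ∈ SS i, NB M V p z) ≤ 1 := measureReal_le_one
      have h3 : (0 : ℝ) ≤ (1 / 2) ^ i := by positivity
      linarith
    · refine (prob_NBs M V p i).trans ?_
      rw [zero_add]
      have h2 : ((qN M V p i : ℕ) : ℝ) ≤ 2 ^ i := by exact_mod_cast h0 i (by omega)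
      have h3 : (0 : ℝ) ≤ (1 / 2) ^ i := by positivity
      have h4 : (2 : ℝ) ^ i * (1 / 2) ^ i = 1 := by
        rw [← mul_pow]
        norm_num
      calc ((qN M V p i : ℕ) : ℝ) * (1 / 2) ^ i * (1 / 2) ^ i ≤
          2 ^ i * (1 / 2) ^ i * (1 / 2) ^ i := by gcongr
        _ = (1 / 2) ^ i := by rw [h4, one_mul]
  refine (Finset.sum_le_sum fun i _ => h1 i).trans ?_
  rw [Finset.sum_add_distrib]
  have h2 : ∑ i ∈ Finset.range n, (if i < n0 then (1 : ℝ) else 0) ≤ n0 := by
    rw [← Finset.sum_filter, Finset.sum_const, nsmul_eq_mul, mul_one]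
    have : ((Finset.range n).filter (fun i => i < n0)).card ≤ (Finset.range n0).card := by
      apply Finset.card_le_card
      intro i hi
      exact Finset.mem_range.2 (Finset.mem_filter.1 hi).2
    rw [Finset.card_range] at this
    exact_mod_cast this
  have h3 : ∑ i ∈ Finset.range n, (1 / 2 : ℝ) ^ i ≤ 2 := by
    have := geom_sum_eq (show (1 / 2 : ℝ) ≠ 1 by norm_num) n
    rw [this]
    have h5 : (0 : ℝ) ≤ (1 / 2) ^ n := by positivity
    rw [div_le_iff_of_neg (by norm_num)]
    linarith
  linarith

/-- Almost surely, for all algorithms the answers are negative only finitely often. -/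
theorem ae_NB : ∀ᵐ A ∂randomOracle, ∀ (M V : Alg) (p : Polynomial ℕ), ∃ n0,
    ∀ z : List Bool, n0 ≤ z.length → A ∉ NB M V p z := by
  have h0 : ∀ᵐ A ∂randomOracle, ∀ (M V W : Alg), ∃ n0,
      ∀ z : List Bool, n0 ≤ z.length → A ∉ NB M V W.p z := by
    rw [ae_all_iff]
    intro M
    rw [ae_all_iff]
    intro V
    rw [ae_all_iff]
    intro W
    have h1 : ∀ᵐ A ∂randomOracle, ¬ ∃ᶠ n in Filter.atTop, A ∈ ⋃ z ∈ SS n, NB M V W.p z := by
      rw [ae_iff]
      simp only [not_not]
      exact freq_zero' M V W.p
    filter_upwards [h1] with A hA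
    rw [Filter.not_frequently, Filter.eventually_atTop] at hA
    obtain ⟨n0, h0⟩ := hA
    refine ⟨n0, fun z hz => ?_⟩
    have h2 := h0 z.length hz
    simp only [Set.mem_iUnion, not_exists] at h2
    exact h2 z (mem_SS.2 rfl)
  filter_upwards [h0] with A hA
  intro M V p
  exact hA M V ⟨M.D, M.poly, p⟩

end Pool.Agent.H673R2.OneTT
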