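import Pool.Agent.H673R2.OneOne.CoreD

/-!
# Negative answers are rare: the main estimate

`T v` tells whether the answer for the value `v` is negative, `P v A` is the set of questions of
an accepting computation (if there is one) for the string asked about.
-/

namespace Pool.Agent.H673R2.OneTT

open MeasureTheory Pool.Agent.NPC Pool.Agent.H628R3.RO Pool.Agent.H673R2.OneOne

/-- accepting computations: the set of their questions -/
abbrev Prf : Type := List Bool → Oracle → Option (Finset (List Bool))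

/-- the hypotheses for the main estimate -/
structure HypN (k q q' N m : ℕ) (κf κd : Cand) (T : List Bool → QA Bool) (P : Prf) : Prop where
  base : Hyp k q N κf κd T
  locP : ∀ A A' : Oracle, (∀ x : List Bool, x.length ≤ m → A x = A' x) → ∀ v, P v A = P v A'
  mN : m ≤ N
  mf : m ≤ κf.1
  md : m ≤ κd.1
  cardP : ∀ v A Q, P v A = some Q → Q.card ≤ q'
  stayP : ∀ v A A' Q, P v A = some Q → (∀ x ∈ Q, A' x = A x) → (P v A').isSome = true
  lenP : ∀ v A Q, P v A = some Q → ∀ x ∈ Q, x.length ≤ m

/-- the answers are right on the values of `G'` and on the strings which are not values -/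
def Cons (k : ℕ) (T : List Bool → QA Bool) (P : Prf) (A : Oracle) : Prop :=
  (∀ s : List Bool, s.length = 2 * k → P (rd (4 * k) 1 s A) A = none) ∧
  ∀ v : List Bool, v.length = 4 * k →
    (∀ s : List Bool, s.length = 2 * k → rd (4 * k) 0 s A ≠ v ∧ rd (4 * k) 1 s A ≠ v) →
    (T v).val A = true → (P v A).isSome = true

/-- the bad event: the answers are right, but negative for the value of the secret seed -/
def NegBad (k : ℕ) (κ : Cand) (T : List Bool → QA Bool) (P : Prf) : Set Oracle :=
  {A | (T (rd (4 * k) 0 (rd (2 * k) κ.1 κ.2 A) A)).val A = true ∧ Cons k T P A}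

variable {k q q' N m : ℕ} {κf κd : Cand} {T : List Bool → QA Bool} {P : Prf}

/-- consistency in terms of the relevant part of the oracle -/
def ConsV (k : ℕ) (w : View) (P : List Bool → Option (Finset (List Bool))) : Prop :=
  (∀ s ∈ SS (2 * k), P (w.g true s) = none) ∧
  ∀ v ∈ SS (4 * k), (∀ s ∈ SS (2 * k), w.g false s ≠ v ∧ w.g true s ≠ v) →
    w.t v = true → (P v).isSome = true

theorem cons_iff (A : Oracle) : Cons k T P A ↔ ConsV k (view k κd T A) (fun v => P v A) := by
  unfold Cons ConsV
  refine and_congr ⟨fun h s hs => ?_, fun h s hs => ?_⟩ ⟨fun h v hv h1 h2 => ?_,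
    fun h v hv h1 h2 => ?_⟩
  · rw [view_g hs]
    exact h s (mem_SS.1 hs)
  · have := h s (mem_SS.2 hs)
    rw [view_g (mem_SS.2 hs)] at this
    exact this
  · refine h v (mem_SS.1 hv) (fun s hs => ?_) h2
    have := h1 s (mem_SS.2 hs)
    rw [view_g (mem_SS.2 hs), view_g (mem_SS.2 hs)] at this
    exact this
  · refine h v (mem_SS.2 hv) (fun s hs => ?_) h2
    rw [view_g hs, view_g hs]
    exact h1 s (mem_SS.1 hs)

theorem lt_of_mem_spots {l : ℕ} {κ : Cand} {x : List Bool} (hx : x ∈ spots l κ) :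
    κ.1 < x.length := by
  obtain ⟨i, hi, rfl⟩ := M2.mem_spots.1 hx
  rw [length_pos]
  omega

theorem HypN.P_eq (H : HypN k q q' N m κf κd T P) {A A' : Oracle} {κ : Cand} {l : ℕ}
    (hm : m ≤ κ.1) (h : ∀ x : List Bool, x.length ≤ N → x ∉ spots l κ → A x = A' x) :
    (fun v => P v A) = fun v => P v A' := by
  funext v
  refine H.locP A A' (fun x hx => h x (hx.trans H.mN) fun h1 => ?_) v
  have := (lt_of_mem_spots h1)
  omega

theorem HypN.loc_f (H : HypN k q q' N m κf κd T P)
    (R : View → (List Bool → Option (Finset (List Bool))) → Prop) :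
    Loc {x | x.length ≤ N ∧ x ∉ spots (2 * k) κf} {A | R (view k κd T A) (fun v => P v A)} := by
  intro A A' h
  have h1 : ∀ x : List Bool, x.length ≤ N → x ∉ spots (2 * k) κf → A x = A' x :=
    fun x h1 h2 => h x ⟨h1, h2⟩
  simp only [Set.mem_ofPred_eq, H.base.view_eq h1]
  rw [H.P_eq H.mf h1]

theorem HypN.meas (H : HypN k q q' N m κf κd T P)
    (R : View → (List Bool → Option (Finset (List Bool))) → Prop) :
    MeasurableSet {A | R (view k κd T A) (fun v => P v A)} :=
  measurableSet_of_loc (finite_K N _) (H.loc_f R)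

theorem HypN.loc_d (H : HypN k q q' N m κf κd T P)
    (R : (Bool → List Bool → List Bool) → (List Bool → Bool) → (List Bool → Finset (List Bool)) →
      (List Bool → Option (Finset (List Bool))) → Prop) :
    Loc {x | x.length ≤ N ∧ x ∉ spots (4 * k) κd}
      {A | R (view k κd T A).g (view k κd T A).t (view k κd T A).Q (fun v => P v A)} := by
  intro A A' h
  have h0 : ∀ x : List Bool, x.length ≤ N → x ∉ spots (4 * k) κd → A x = A' x :=
    fun x h1 h2 => h x ⟨h1, h2⟩
  have h1 : ∀ v, (T v).val A' = (T v).val A ∧ (T v).qs A' = (T v).qs A := fun v =>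
    (T v).loc A A' fun x hx => (h x ⟨H.base.len v A x hx, H.base.hd v A x hx⟩).symm
  have h2 : (view k κd T A).t = (view k κd T A').t := by
    funext v
    exact (h1 v).1.symm
  have h3 : (view k κd T A).Q = (view k κd T A').Q := by
    funext v
    exact (h1 v).2.symm
  have h4 : (view k κd T A).g = (view k κd T A').g := by
    funext b s
    unfold view
    simp only
    split_ifs with hs
    · apply rd_congr
      intro x hx
      exact h0 x ((length_near hs hx).trans H.base.near)
        (notMem_spots_of_ne (H.base.near_ne b s).1 hx)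
    · rfl
  have h5 := H.P_eq H.md h0
  simp only [Set.mem_ofPred_eq, h2, h3, h4]
  rw [h5]

/-- swapping back -/
theorem act_act (l : ℕ) (κ κ' : Cand) (A : Oracle) : act l κ κ' (act l κ κ' A) = A := by
  funext x
  unfold act
  rw [swf_swf]

open Classical in
/-- lower bound for the sum of the probabilities -/
theorem le_sum_prob {ι : Type*} (I : Finset ι) (E : ι → Set Oracle)
    (hE : ∀ i ∈ I, MeasurableSet (E i)) {S : Set Oracle} (hS : MeasurableSet S) (C : ℝ)
    (h : ∀ A ∈ S, C ≤ ((I.filter (fun i => A ∈ E i)).card : ℝ)) :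
    C * prob S ≤ ∑ i ∈ I, prob (E i) := by
  have h1 : ∀ i ∈ I, prob (E i) = ∫ B, (E i).indicator (fun _ => (1 : ℝ)) B ∂randomOracle := by
    intro i hi
    rw [integral_indicator_const _ (hE i hi)]
    simp [prob]
  have hint : ∀ i ∈ I, Integrable (fun B => (E i).indicator (fun _ => (1 : ℝ)) B)
      randomOracle := fun i hi => (integrable_const (1 : ℝ)).indicator (hE i hi)
  rw [Finset.sum_congr rfl h1, ← integral_finsetSum _ hint]
  have h2 : C * prob S = ∫ B, S.indicator (fun _ => C) B ∂randomOracle := by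
    rw [integral_indicator_const _ hS]
    simp [prob, mul_comm]
  rw [h2]
  apply integral_mono ((integrable_const C).indicator hS) (integrable_finsetSum _ hint)
  intro B
  have h3 : ∑ i ∈ I, (E i).indicator (fun _ => (1 : ℝ)) B =
      ((I.filter (fun i => B ∈ E i)).card : ℝ) := by
    simp only [Set.indicator_apply]
    rw [Finset.sum_ite, Finset.sum_const_zero, add_zero, Finset.sum_const, nsmul_eq_mul, mul_one]
  show S.indicator (fun _ => C) B ≤ ∑ i ∈ I, (E i).indicator (fun _ => (1 : ℝ)) B
  rw [h3]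
  by_cases hB : B ∈ S
  · rw [Set.indicator_of_mem hB]
    exact h B hB
  · rw [Set.indicator_of_notMem hB]
    exact Nat.cast_nonneg _

/-- many values lead to a negative answer, and the answers are right -/
def EN (k : ℕ) (w : View) (P : List Bool → Option (Finset (List Bool))) : Prop :=
  ConsV k w P ∧ 2 ^ (3 * k) ≤ (RR k w.t).card

/-- the planted value leads to a wrong answer, which was right before -/
def XN (k : ℕ) (κd : Cand) (T : List Bool → QA Bool) (P : Prf) (s : List Bool) : Set Oracle :=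
  {A | (P (rd (4 * k) 1 s A) A).isSome = true ∧
    EN k (view k κd T (act (4 * k) (1, s) κd A)) (fun v => P v (act (4 * k) (1, s) κd A))}

theorem near_one_ne (H : HypN k q q' N m κf κd T P) (s : List Bool) : ((1, s) : Cand) ≠ κd :=
  (H.base.near_ne true s).1

open Classical in
/-- an oracle arises from few planted values -/
theorem HypN.card_XN (H : HypN k q q' N m κf κd T P) (A : Oracle) :
    ((SS (2 * k)).filter (fun s => A ∈ XN k κd T P s)).card ≤ q' + 1 := by
  by_cases h0 : ((SS (2 * k)).filter (fun s => A ∈ XN k κd T P s)) = ∅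
  · rw [h0]
    simp
  obtain ⟨s₁, hs₁⟩ := Finset.nonempty_iff_ne_empty.2 h0
  rw [Finset.mem_filter] at hs₁
  obtain ⟨hs₁, h1, -⟩ := hs₁
  obtain ⟨Q, hQ⟩ := Option.isSome_iff_exists.1 h1
  have h2 : ((SS (2 * k)).filter (fun s => A ∈ XN k κd T P s)) ⊆
      {s₁} ∪ (SS (2 * k)).filter (fun s => Tch k Q true s) := by
    intro s hs
    rw [Finset.mem_filter] at hs
    obtain ⟨hs, -, h3, -⟩ := hs
    by_cases hne : s = s₁
    · exact Finset.mem_union_left _ (Finset.mem_singleton.2 hne)
    apply Finset.mem_union_right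
    rw [Finset.mem_filter]
    refine ⟨hs, ?_⟩
    by_contra hT
    have h4 := h3.1 s₁ hs₁
    rw [view_g hs₁] at h4
    have h5 : rd (4 * k) true.toNat s₁ (act (4 * k) (1, s) κd A) = rd (4 * k) 1 s₁ A := by
      refine rd_act_other (4 * k) (4 * k) (1, s) κd (1, s₁) A ?_ (near_one_ne H s₁)
      intro h6
      exact hne (congrArg Prod.snd h6).symm
    rw [h5] at h4
    have h6 := H.stayP _ A (act (4 * k) (1, s) κd A) Q hQ fun x hx => by
      apply act_other
      · intro h7
        exact hT ⟨x, hx, h7⟩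
      · intro h7
        have h8 := lt_of_mem_spots h7
        have h9 := H.lenP _ _ _ hQ x hx
        have h10 := H.md
        omega
    simp only at h4
    rw [h4] at h6
    exact absurd h6 (by simp)
  refine (Finset.card_le_card h2).trans ((Finset.card_union_le _ _).trans ?_)
  have h3 := card_touch (k := k) Q true (SS (2 * k))
  have h4 := H.cardP _ _ _ hQ
  rw [Finset.card_singleton]
  omega

/-- the accepting computation for the planted value touches the block -/
def TN (k : ℕ) (s : List Bool) (w : View) (P : List Bool → Option (Finset (List Bool))) : Prop :=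
  ∃ Q, P w.u = some Q ∧ Tch k Q true s

open Classical in
theorem HypN.sum_TN (H : HypN k q q' N m κf κd T P) :
    ∑ s ∈ SS (2 * k), prob {A | TN k s (view k κd T A) (fun v => P v A)} ≤ q' := by
  apply sum_prob_le_card _ _ (fun s _ => H.meas (TN k s))
  intro A
  rcases hQ : P (view k κd T A).u A with _ | Q
  · have : ((SS (2 * k)).filter (fun s => A ∈ {A | TN k s (view k κd T A) (fun v => P v A)})) =
        ∅ := by
      apply Finset.filter_false_of_mem
      rintro s _ ⟨Q, h1, -⟩
      simp only [hQ] at h1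
      exact absurd h1 (by simp)
    rw [this]
    simp
  · have h1 : ((SS (2 * k)).filter (fun s => A ∈ {A | TN k s (view k κd T A)
        (fun v => P v A)})) ⊆ (SS (2 * k)).filter (fun s => Tch k Q true s) := by
      intro s hs
      rw [Finset.mem_filter] at hs ⊢
      obtain ⟨h1, Q', h2, h3⟩ := hs
      simp only [hQ, Option.some.injEq] at h2
      subst h2
      exact ⟨h1, h3⟩
    exact_mod_cast (Finset.card_le_card h1).trans ((card_touch _ _ _).trans (H.cardP _ _ _ hQ))

/-- the planted value is already a value -/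
def CN (k : ℕ) (w : View) : Prop :=
  ∃ s ∈ SS (2 * k), w.g false s = w.u ∨ w.g true s = w.u

theorem HypN.prob_CN (H : HypN k q q' N m κf κd T P) :
    prob {A | CN k (view k κd T A)} ≤ 2 * (1 / 2) ^ (2 * k) := by
  have h1 : {A | CN k (view k κd T A)} ⊆ ⋃ s ∈ SS (2 * k),
      ({A : Oracle | rd (4 * k) 0 s A = rd (4 * k) κd.1 κd.2 A} ∪
        {A : Oracle | rd (4 * k) 1 s A = rd (4 * k) κd.1 κd.2 A}) := by
    rintro A ⟨s, hs, h⟩
    simp only [Set.mem_iUnion]
    refine ⟨s, hs, ?_⟩
    rw [view_g hs, view_g hs] at h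
    exact h
  refine (M2.prob_mono h1).trans ((prob_biUnion_le' _ _).trans ?_)
  have h2 : ∀ s ∈ SS (2 * k), prob ({A : Oracle | rd (4 * k) 0 s A = rd (4 * k) κd.1 κd.2 A} ∪
        {A : Oracle | rd (4 * k) 1 s A = rd (4 * k) κd.1 κd.2 A}) ≤ 2 * (1 / 2) ^ (4 * k) := by
    intro s _
    have h3 := prob_two (κ := (0, s)) (κ' := κd) (H.base.near_ne false s).1 (4 * k)
    have h4 := prob_two (κ := (1, s)) (κ' := κd) (H.base.near_ne true s).1 (4 * k)
    have h5 := M2.prob_union_le {A : Oracle | rd (4 * k) 0 s A = rd (4 * k) κd.1 κd.2 A}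
      {A : Oracle | rd (4 * k) 1 s A = rd (4 * k) κd.1 κd.2 A}
    simp only at h3 h4
    linarith
  refine (Finset.sum_le_sum h2).trans ?_
  rw [Finset.sum_const, card_SS, nsmul_eq_mul]
  push_cast
  have h3 : (1 / 2 : ℝ) ^ (4 * k) = (1 / 2) ^ (2 * k) * (1 / 2) ^ (2 * k) := by
    rw [← pow_add]
    congr 1
    ring
  have h4 : (2 : ℝ) ^ (2 * k) * (1 / 2) ^ (2 * k) = 1 := by
    rw [← mul_pow]
    norm_num
  rw [h3]
  calc (2 : ℝ) ^ (2 * k) * (2 * ((1 / 2) ^ (2 * k) * (1 / 2) ^ (2 * k))) =
      ((2 : ℝ) ^ (2 * k) * (1 / 2) ^ (2 * k)) * (2 * (1 / 2) ^ (2 * k)) := by ring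
    _ = _ := by rw [h4, one_mul]
    _ ≤ _ := le_refl _

theorem HypN.meas_XN (H : HypN k q q' N m κf κd T P) {s : List Bool} (hs : s ∈ SS (2 * k)) :
    MeasurableSet (XN k κd T P s) := by
  have h1 : MeasurableSet {A | (P (rd (4 * k) 1 s A) A).isSome = true} := by
    have h2 := H.meas (fun w P => (P (w.g true s)).isSome = true)
    simp only [view_g hs] at h2
    exact h2
  have h2 := measurableSet_act (4 * k) (1, s) κd (H.meas (EN k))
  exact h1.inter h2

/-- the planted value leads to a negative answer -/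
theorem HypN.prob_step (H : HypN k q q' N m κf κd T P) {s : List Bool} (hs : s ∈ SS (2 * k)) :
    prob {A | EN k (view k κd T A) (fun v => P v A) ∧ (view k κd T A).u ∈
      RR k (view k κd T A).t} ≤ prob (XN k κd T P s) + (prob {A | CN k (view k κd T A)} +
      prob {A | TN k s (view k κd T A) (fun v => P v A)}) := by
  rw [← prob_act (4 * k) (1, s) κd (H.meas_XN hs)]
  refine le_trans (M2.prob_mono ?_) ((M2.prob_union_le _ _).trans
    (add_le_add_right (M2.prob_union_le _ _) _))
  rintro A ⟨hE, hu⟩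
  by_cases hC : CN k (view k κd T A)
  · exact Or.inr (Or.inl hC)
  by_cases hT : TN k s (view k κd T A) (fun v => P v A)
  · exact Or.inr (Or.inr hT)
  left
  have h1 : (P (view k κd T A).u A).isSome = true := by
    unfold RR at hu
    rw [Finset.mem_filter] at hu
    refine hE.1.2 _ hu.1 (fun s' hs' => ?_) hu.2
    by_contra h2
    rw [not_and_or, not_not, not_not] at h2
    exact hC ⟨s', hs', h2⟩
  obtain ⟨Q, hQ⟩ := Option.isSome_iff_exists.1 h1
  show A ∈ {A | act (4 * k) (1, s) κd A ∈ XN k κd T P s}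
  refine ⟨?_, ?_⟩
  · rw [rd_act_left (4 * k) (1, s) κd A]
    refine H.stayP _ A _ Q hQ fun x hx => ?_
    apply act_other
    · intro h7
      exact hT ⟨Q, hQ, x, hx, h7⟩
    · intro h7
      have h8 := lt_of_mem_spots h7
      have h9 := H.lenP _ _ _ hQ x hx
      have h10 := H.md
      omega
  · rw [act_act]
    exact hE

open Classical in
theorem HypN.prob_EN (H : HypN k q q' N m κf κd T P) :
    prob {A | EN k (view k κd T A) (fun v => P v A)} ≤ (2 * q' + 3) * (1 / 2) ^ k := by
  set E : Set Oracle := {A | EN k (view k κd T A) (fun v => P v A)} with hE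
  -- the average over the places where the value is planted
  have h1 : (2 : ℝ) ^ (2 * k) * prob {A | EN k (view k κd T A) (fun v => P v A) ∧
      (view k κd T A).u ∈ RR k (view k κd T A).t} ≤ 2 * q' + 3 := by
    have h2 := Finset.sum_le_sum fun s hs => H.prob_step (s := s) hs
    rw [Finset.sum_const, card_SS, nsmul_eq_mul, Finset.sum_add_distrib, Finset.sum_add_distrib,
      Finset.sum_const, card_SS, nsmul_eq_mul] at h2
    have h3 : ∑ s ∈ SS (2 * k), prob (XN k κd T P s) ≤ ((q' + 1 : ℕ) : ℝ) := by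
      apply sum_prob_le_card _ _ (fun s hs => H.meas_XN hs)
      intro A
      exact_mod_cast H.card_XN A
    have h4 := H.sum_TN
    have h5 := mul_le_mul_of_nonneg_left H.prob_CN (show (0 : ℝ) ≤ 2 ^ (2 * k) by positivity)
    have h6 : (2 : ℝ) ^ (2 * k) * (2 * (1 / 2) ^ (2 * k)) = 2 := by
      have h4 : (2 : ℝ) ^ (2 * k) * (1 / 2) ^ (2 * k) = 1 := by
        rw [← mul_pow]
        norm_num
      linarith
    push_cast at h2 h3
    linarith
  -- the planted value is random
  have h2 : prob {A | EN k (view k κd T A) (fun v => P v A) ∧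
      (view k κd T A).u ∈ RR k (view k κd T A).t} =
      ∑ v ∈ SS (4 * k), (1 / 2 : ℝ) ^ (4 * k) * prob {A | EN k (view k κd T A) (fun v => P v A) ∧
        v ∈ RR k (view k κd T A).t} := by
    have h3 : {A | EN k (view k κd T A) (fun v => P v A) ∧
      (view k κd T A).u ∈ RR k (view k κd T A).t} = ⋃ v ∈ SS (4 * k),
        ({A : Oracle | rd (4 * k) κd.1 κd.2 A = v} ∩
          {A | EN k (view k κd T A) (fun v => P v A) ∧ v ∈ RR k (view k κd T A).t}) := by
      ext A
      simp only [Set.mem_iUnion, Set.mem_inter_iff, Set.mem_ofPred_eq, exists_prop]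
      constructor
      · rintro ⟨h4, h5⟩
        refine ⟨(view k κd T A).u, ?_, rfl, h4, h5⟩
        rw [mem_SS]
        exact length_rd _ _ _ _
      · rintro ⟨v, _, h5, h6, h7⟩
        refine ⟨h6, ?_⟩
        have : (view k κd T A).u = v := h5
        rw [this]
        exact h7
    have hl : ∀ v, Loc {x | x.length ≤ N ∧ x ∉ spots (4 * k) κd}
        {A | EN k (view k κd T A) (fun v => P v A) ∧ v ∈ RR k (view k κd T A).t} := fun v =>
      H.loc_d fun g t Q P => EN k ⟨g, [], t, Q⟩ P ∧ v ∈ RR k t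
    rw [h3]
    unfold prob
    rw [measureReal_biUnion_finset]
    · refine Finset.sum_congr rfl fun v hv => ?_
      rw [mem_SS] at hv
      exact prob_pattern hv (finite_K N _) (fun x hx => hx.2) (hl v)
    · intro v _ v' _ hne
      rw [Function.onFun, Set.disjoint_left]
      rintro A ⟨h4, -⟩ ⟨h5, -⟩
      exact hne (h4.symm.trans h5)
    · intro v _
      exact (measurableSet_of_loc (Finset.finite_toSet _) (loc_rd (4 * k) κd v)).inter
        (measurableSet_of_loc (finite_K N _) (hl v))
  have h3 : ((2 ^ (3 * k) : ℕ) : ℝ) * prob E ≤ ∑ v ∈ SS (4 * k),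
      prob {A | EN k (view k κd T A) (fun v => P v A) ∧ v ∈ RR k (view k κd T A).t} := by
    have h6 : ∀ v, MeasurableSet {A | EN k (view k κd T A) (fun v => P v A) ∧
        v ∈ RR k (view k κd T A).t} := fun v => H.meas fun w P => EN k w P ∧ v ∈ RR k w.t
    obtain ⟨E', hE'⟩ : ∃ E' : List Bool → Set Oracle, E' = fun v =>
      {A | EN k (view k κd T A) (fun v => P v A) ∧ v ∈ RR k (view k κd T A).t} := ⟨_, rfl⟩
    have h7 : ∀ v, prob {A | EN k (view k κd T A) (fun v => P v A) ∧
        v ∈ RR k (view k κd T A).t} = prob (E' v) := fun v => by rw [hE']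
    simp only [h7]
    apply le_sum_prob _ _ (fun v _ => by rw [hE']; exact h6 v) (H.meas (EN k))
    intro A hA
    have h5 : ∀ F : Finset (List Bool), RR k (view k κd T A).t ⊆ F →
        ((2 ^ (3 * k) : ℕ) : ℝ) ≤ (F.card : ℝ) := fun F h =>
      Nat.cast_le.2 (hA.2.trans (Finset.card_le_card h))
    apply h5
    intro v hv
    rw [Finset.mem_filter]
    refine ⟨?_, ?_⟩
    · unfold RR at hv
      exact (Finset.mem_filter.1 hv).1
    · rw [hE']
      exact ⟨hA, hv⟩
  rw [h2, ← Finset.mul_sum] at h1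
  have h4 : (2 : ℝ) ^ k * prob E ≤ 2 * q' + 3 := by
    refine le_trans (le_of_eq ?_) ((mul_le_mul_of_nonneg_left (mul_le_mul_of_nonneg_left h3
      (show (0 : ℝ) ≤ (1 / 2) ^ (4 * k) by positivity))
      (show (0 : ℝ) ≤ 2 ^ (2 * k) by positivity)).trans h1)
    push_cast
    have h5 : (2 : ℝ) ^ (2 * k) * ((1 / 2) ^ (4 * k) * 2 ^ (3 * k)) = 2 ^ k := by
      have h6 : (1 / 2 : ℝ) ^ (4 * k) * 2 ^ (4 * k) = 1 := by
        rw [← mul_pow]
        norm_num
      calc (2 : ℝ) ^ (2 * k) * ((1 / 2) ^ (4 * k) * 2 ^ (3 * k)) =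
          (1 / 2) ^ (4 * k) * (2 ^ (2 * k) * 2 ^ (3 * k)) := by ring
        _ = (1 / 2) ^ (4 * k) * (2 ^ (4 * k) * 2 ^ k) := by
          rw [← pow_add, ← pow_add]
          congr 2
          ring
        _ = ((1 / 2) ^ (4 * k) * 2 ^ (4 * k)) * 2 ^ k := by ring
        _ = _ := by rw [h6, one_mul]
    rw [← h5]
    ring
  have h5 : (2 : ℝ) ^ k * (1 / 2) ^ k = 1 := by
    rw [← mul_pow]
    norm_num
  have h6 := mul_le_mul_of_nonneg_right h4 (show (0 : ℝ) ≤ (1 / 2) ^ k by positivity)
  calc prob E = (2 : ℝ) ^ k * (1 / 2) ^ k * prob E := by rw [h5, one_mul]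
    _ = (2 : ℝ) ^ k * prob E * (1 / 2) ^ k := by ring
    _ ≤ _ := h6

/-- few values lead to a negative answer, among them the value of `s` -/
def FN (k : ℕ) (s : List Bool) (w : View) : Prop :=
  w.t (w.g false s) = true ∧ (RR k w.t).card < 2 ^ (3 * k)

open Classical in
theorem sum_FN (H : Hyp k q N κf κd T) :
    ∑ s ∈ SS (2 * k), prob {A | FN k s (view k κd T A)} ≤ 2 * q + 2 ^ k := by
  have h0 : ∑ s ∈ SS (2 * k), prob {A | (view k κd T A).u ∈ RR k (view k κd T A).t ∧
      (RR k (view k κd T A).t).card ≤ 2 ^ (3 * k) + T0 k (view k κd T A).Q false s} ≤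
      2 ^ k + q := by
    have h1 : ∀ s ∈ SS (2 * k), prob {A | (view k κd T A).u ∈ RR k (view k κd T A).t ∧
        (RR k (view k κd T A).t).card ≤ 2 ^ (3 * k) + T0 k (view k κd T A).Q false s} ≤
        ∑ v ∈ SS (4 * k), (1 / 2) ^ (4 * k) * prob {A | v ∈ RR k (view k κd T A).t ∧
          (RR k (view k κd T A).t).card ≤ 2 ^ (3 * k) + T0 k (view k κd T A).Q false s} := by
      intro s _
      have h2 : {A | (view k κd T A).u ∈ RR k (view k κd T A).t ∧
        (RR k (view k κd T A).t).card ≤ 2 ^ (3 * k) + T0 k (view k κd T A).Q false s} ⊆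
          ⋃ v ∈ SS (4 * k), ({A : Oracle | rd (4 * k) κd.1 κd.2 A = v} ∩
            {A | v ∈ RR k (view k κd T A).t ∧ (RR k (view k κd T A).t).card ≤
              2 ^ (3 * k) + T0 k (view k κd T A).Q false s}) := by
        intro A hA
        simp only [Set.mem_iUnion]
        refine ⟨(view k κd T A).u, ?_, rfl, hA⟩
        rw [mem_SS]
        exact length_rd _ _ _ _
      refine (M2.prob_mono h2).trans ((prob_biUnion_le' _ _).trans ?_)
      apply Finset.sum_le_sum
      intro v hv
      rw [mem_SS] at hv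
      refine le_of_eq (prob_pattern hv (finite_K N _) ?_ (H.loc_d fun t Q => v ∈ RR k t ∧
        (RR k t).card ≤ 2 ^ (3 * k) + T0 k Q false s))
      intro x hx
      exact hx.2
    refine (Finset.sum_le_sum h1).trans ?_
    simp only [← Finset.mul_sum]
    have h3 : ∑ s ∈ SS (2 * k), ∑ v ∈ SS (4 * k), prob {A | v ∈ RR k (view k κd T A).t ∧
          (RR k (view k κd T A).t).card ≤ 2 ^ (3 * k) + T0 k (view k κd T A).Q false s} ≤
        ((2 ^ (3 * k) * 2 ^ (2 * k) + 2 ^ (4 * k) * q : ℕ) : ℝ) := by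
      rw [← Finset.sum_product (f := fun p : List Bool × List Bool =>
        prob {A | p.2 ∈ RR k (view k κd T A).t ∧
          (RR k (view k κd T A).t).card ≤ 2 ^ (3 * k) + T0 k (view k κd T A).Q false p.1})]
      apply sum_prob_le_card _ _ (fun p _ => H.meas fun w => p.2 ∈ RR k w.t ∧
        (RR k w.t).card ≤ 2 ^ (3 * k) + T0 k w.Q false p.1)
      intro A
      simp only [Set.mem_ofPred_eq]
      rw [card_pairs (SS (2 * k)) (SS (4 * k)) (fun s v => v ∈ RR k (view k κd T A).t ∧
          (RR k (view k κd T A).t).card ≤ 2 ^ (3 * k) + T0 k (view k κd T A).Q false s)]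
      norm_cast
      calc ∑ s ∈ SS (2 * k), ((SS (4 * k)).filter (fun v => v ∈ RR k (view k κd T A).t ∧
          (RR k (view k κd T A).t).card ≤
            2 ^ (3 * k) + T0 k (view k κd T A).Q false s)).card
          ≤ ∑ s ∈ SS (2 * k), (2 ^ (3 * k) + T0 k (view k κd T A).Q false s) := by
            apply Finset.sum_le_sum
            intro s _
            by_cases h4 : (RR k (view k κd T A).t).card ≤
                2 ^ (3 * k) + T0 k (view k κd T A).Q false s
            · refine le_trans (Finset.card_le_card ?_) h4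
              intro v hv
              exact (Finset.mem_filter.1 hv).2.1
            · rw [Finset.card_eq_zero.2]
              · exact Nat.zero_le _
              · apply Finset.filter_false_of_mem
                intro v _ h5
                exact h4 h5.2
        _ ≤ 2 ^ (3 * k) * 2 ^ (2 * k) + 2 ^ (4 * k) * q := by
            rw [Finset.sum_add_distrib, Finset.sum_const, card_SS, smul_eq_mul]
            have := H.sum_T0 A false
            nlinarith
    have h4 : (1 / 2 : ℝ) ^ (4 * k) * ((2 ^ (3 * k) * 2 ^ (2 * k) + 2 ^ (4 * k) * q : ℕ) : ℝ) =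
        2 ^ k + q := by
      push_cast
      have h5 : (2 : ℝ) ^ (3 * k) * 2 ^ (2 * k) = 2 ^ (4 * k) * 2 ^ k := by
        rw [← pow_add, ← pow_add]
        congr 1
        ring
      have h6 : (1 / 2 : ℝ) ^ (4 * k) * 2 ^ (4 * k) = 1 := by
        rw [← mul_pow]
        norm_num
      calc (1 / 2 : ℝ) ^ (4 * k) * (2 ^ (3 * k) * 2 ^ (2 * k) + 2 ^ (4 * k) * q) =
          (1 / 2 : ℝ) ^ (4 * k) * 2 ^ (4 * k) * 2 ^ k +
            (1 / 2 : ℝ) ^ (4 * k) * 2 ^ (4 * k) * q := by rw [h5]; ring
        _ = 2 ^ k + q := by rw [h6]; ring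
    rw [← h4]
    exact mul_le_mul_of_nonneg_left h3 (by positivity)
  have h1 : ∀ s ∈ SS (2 * k), prob {A | FN k s (view k κd T A)} ≤
      prob {A | Tch k ((view k κd T A).Q (view k κd T A).u) false s} +
      prob {A | (view k κd T A).u ∈ RR k (view k κd T A).t ∧
      (RR k (view k κd T A).t).card ≤ 2 ^ (3 * k) + T0 k (view k κd T A).Q false s} := by
    intro s hs
    rw [← prob_act (4 * k) (0, s) κd (H.meas (FN k s))]
    refine le_trans (M2.prob_mono ?_) (M2.prob_union_le _ _)
    intro A hA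
    by_cases hT : Tch k ((view k κd T A).Q (view k κd T A).u) false s
    · exact Or.inl hT
    right
    simp only [Set.mem_ofPred_eq, FN] at hA
    obtain ⟨hA1, hA2⟩ := hA
    rw [view_g hs] at hA1
    have h2 : rd (4 * k) false.toNat s (act (4 * k) (0, s) κd A) = (view k κd T A).u :=
      rd_act_left _ _ _ _
    rw [h2] at hA1
    have hst : ∀ v, ¬ Tch k ((view k κd T A).Q v) false s →
        (view k κd T (act (4 * k) (0, s) κd A)).t v = (view k κd T A).t v := fun v hv =>
      (stay (k := k) (κd := κd) (T := T) (v := v) (l := 4 * k)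
      (κ := (0, s)) (κ' := κd) (A := A) fun x hx =>
        ⟨fun h => hv ⟨x, hx, h⟩, H.hd _ A x hx⟩).1
    refine ⟨?_, ?_⟩
    · unfold RR
      rw [Finset.mem_filter]
      refine ⟨?_, ?_⟩
      · rw [mem_SS]
        exact length_rd _ _ _ _
      · rw [← hst _ hT]
        exact hA1
    · have h3 : RR k (view k κd T A).t ⊆ RR k (view k κd T (act (4 * k) (0, s) κd A)).t ∪
          (SS (4 * k)).filter (fun v => Tch k ((view k κd T A).Q v) false s) := by
        intro v hv
        unfold RR at hv ⊢
        rw [Finset.mem_filter] at hv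
        by_cases hTv : Tch k ((view k κd T A).Q v) false s
        · exact Finset.mem_union_right _ (Finset.mem_filter.2 ⟨hv.1, hTv⟩)
        · apply Finset.mem_union_left
          rw [Finset.mem_filter, hst v hTv]
          exact hv
      refine (Finset.card_le_card h3).trans ((Finset.card_union_le _ _).trans ?_)
      exact Nat.add_le_add hA2.le (le_refl _)
  refine (Finset.sum_le_sum h1).trans ?_
  rw [Finset.sum_add_distrib]
  have h2 : ∑ s ∈ SS (2 * k),
      prob {A | Tch k ((view k κd T A).Q (view k κd T A).u) false s} ≤ (q : ℝ) := by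
    apply sum_prob_le_card _ _ (fun s _ => H.meas fun w => Tch k (w.Q w.u) false s)
    intro A
    have h4 := card_touch (k := k) ((view k κd T A).Q (view k κd T A).u) false (SS (2 * k))
    exact_mod_cast h4.trans (H.card _ A)
  linarith

theorem HypN.prob_neg (H : HypN k q q' N m κf κd T P) :
    prob (NegBad k κf T P) ≤ (2 * q + 2 * q' + 4) * (1 / 2) ^ k := by
  have h1 : NegBad k κf T P ⊆ {A | EN k (view k κd T A) (fun v => P v A)} ∪
      ⋃ s ∈ SS (2 * k), ({A : Oracle | rd (2 * k) κf.1 κf.2 A = s} ∩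
        {A | FN k s (view k κd T A)}) := by
    rintro A ⟨hA1, hA2⟩
    rw [cons_iff (κd := κd)] at hA2
    by_cases h2 : 2 ^ (3 * k) ≤ (RR k (view k κd T A).t).card
    · exact Or.inl ⟨hA2, h2⟩
    right
    simp only [Set.mem_iUnion]
    have hs : rd (2 * k) κf.1 κf.2 A ∈ SS (2 * k) := by
      rw [mem_SS]
      exact length_rd _ _ _ _
    refine ⟨rd (2 * k) κf.1 κf.2 A, hs, rfl, ?_, not_le.1 h2⟩
    rw [view_g hs]
    exact hA1
  refine (M2.prob_mono h1).trans ((M2.prob_union_le _ _).trans ?_)
  have h2 := H.prob_EN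
  have h3 : prob (⋃ s ∈ SS (2 * k), ({A : Oracle | rd (2 * k) κf.1 κf.2 A = s} ∩
        {A | FN k s (view k κd T A)})) ≤ (1 / 2 : ℝ) ^ (2 * k) * (2 * q + 2 ^ k) := by
    refine (prob_biUnion_le' _ _).trans ?_
    refine le_trans (Finset.sum_le_sum fun s hs => le_of_eq ?_) (le_trans
      (le_of_eq (Finset.mul_sum _ _ _).symm) (mul_le_mul_of_nonneg_left (sum_FN H.base)
      (by positivity)))
    rw [mem_SS] at hs
    exact prob_pattern hs (finite_K N _) (fun x hx => hx.2) (H.base.loc_f fun w => FN k s w)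
  have h4 : (1 / 2 : ℝ) ^ (2 * k) * (2 * q + 2 ^ k) ≤ (2 * q + 1) * (1 / 2) ^ k := by
    have h6 : (1 / 2 : ℝ) ^ (2 * k) = (1 / 2) ^ k * (1 / 2) ^ k := by
      rw [← pow_add]
      congr 1
      ring
    have h7 : (1 / 2 : ℝ) ^ k * 2 ^ k = 1 := by
      rw [← mul_pow]
      norm_num
    have h8 : (1 / 2 : ℝ) ^ k ≤ 1 := pow_le_one₀ (by norm_num) (by norm_num)
    have h9 : (0 : ℝ) ≤ (1 / 2) ^ k := by positivity
    have h10 : (0 : ℝ) ≤ q := Nat.cast_nonneg q
    rw [h6]
    calc (1 / 2 : ℝ) ^ k * (1 / 2) ^ k * (2 * q + 2 ^ k) =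
        (1 / 2 : ℝ) ^ k * ((1 / 2) ^ k * (2 * q) + (1 / 2) ^ k * 2 ^ k) := by ring
      _ ≤ (1 / 2 : ℝ) ^ k * (1 * (2 * q) + 1) := by
        rw [h7]
        gcongr
      _ = _ := by ring
  linarith

end Pool.Agent.H673R2.OneTT
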