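import Pool.Agent.H673R2.OneTT.Kset
import Pool.Agent.H628R3.RO.M4

/-!
# Conditioning on the computation of a query algorithm
-/

namespace Pool.Agent.H673R2.OneTT

open MeasureTheory Pool.Agent.NPC Pool.Agent.H628R3.RO Pool.Agent.H673R2.OneOne

/-- the oracles which give the same answers -/
def Leaf {β : Type} (F : QA β) (A₀ : Oracle) : Set Oracle := {A | ∀ x ∈ F.qs A₀, A x = A₀ x}

theorem leaf_self {β : Type} (F : QA β) (A : Oracle) : A ∈ Leaf F A := fun _ _ => rfl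

theorem leaf_eq {β : Type} {F : QA β} {A A₀ : Oracle} (h : A ∈ Leaf F A₀) :
    Leaf F A = Leaf F A₀ := by
  have h1 := (F.loc A₀ A h).2
  unfold Leaf
  ext B
  simp only [Set.mem_ofPred_eq, h1]
  exact forall₂_congr fun x hx => by rw [h x hx]

theorem loc_leaf {β : Type} (F : QA β) (A₀ : Oracle) :
    Loc (F.qs A₀ : Set (List Bool)) (Leaf F A₀) := by
  intro A A' h
  unfold Leaf
  simp only [Set.mem_ofPred_eq]
  exact forall₂_congr fun x hx => by rw [h x (Finset.mem_coe.2 hx)]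

theorem meas_leaf {β : Type} (F : QA β) (A₀ : Oracle) : MeasurableSet (Leaf F A₀) :=
  measurableSet_of_loc (Finset.finite_toSet _) (loc_leaf F A₀)

open Classical in
/-- the finite set of all leaves -/
noncomputable def leaves {β : Type} (F : QA β) (N : ℕ) : Finset (Set Oracle) :=
  (strs N).toFinset.powerset.image (fun g => Leaf F (fun x => decide (x ∈ g)))

theorem leaf_mem {β : Type} {F : QA β} {N : ℕ} (hN : ∀ A, ∀ x ∈ F.qs A, x.length ≤ N)
    (A : Oracle) : Leaf F A ∈ leaves F N := by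
  classical
  unfold leaves
  rw [Finset.mem_image]
  refine ⟨(strs N).toFinset.filter (fun x => A x = true),
    Finset.mem_powerset.2 (Finset.filter_subset _ _), ?_⟩
  have h1 : ∀ x : List Bool, x.length ≤ N →
      decide (x ∈ (strs N).toFinset.filter (fun x => A x = true)) = A x := by
    intro x hx
    have h2 : x ∈ (strs N).toFinset := by
      rw [List.mem_toFinset, mem_strs]
      exact hx
    cases hA : A x
    · simp [hA]
    · simp only [decide_eq_true_eq, Finset.mem_filter, hA, and_true]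
      exact h2
  apply leaf_eq
  intro x hx
  exact h1 x (hN A x hx)

theorem leaf_total {β : Type} {F : QA β} {N : ℕ} (hN : ∀ A, ∀ x ∈ F.qs A, x.length ≤ N)
    {Z : Set Oracle} (hZ : MeasurableSet Z) : prob Z = ∑ L ∈ leaves F N, prob (Z ∩ L) := by
  classical
  have h1 : Z = ⋃ L ∈ leaves F N, (Z ∩ L) := by
    ext A
    simp only [Set.mem_iUnion, exists_prop]
    constructor
    · intro hA
      exact ⟨Leaf F A, leaf_mem hN A, hA, leaf_self F A⟩
    · rintro ⟨L, -, hA, -⟩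
      exact hA
  have h2 : ∀ L ∈ leaves F N, ∃ A₀, L = Leaf F A₀ := by
    intro L hL
    unfold leaves at hL
    obtain ⟨g, -, rfl⟩ := Finset.mem_image.1 hL
    exact ⟨_, rfl⟩
  conv_lhs => rw [h1]
  unfold prob
  rw [measureReal_biUnion_finset]
  · intro L hL L' hL' hne
    rw [Function.onFun, Set.disjoint_left]
    rintro A ⟨-, hA⟩ ⟨-, hA'⟩
    obtain ⟨A₀, rfl⟩ := h2 L hL
    obtain ⟨A₁, rfl⟩ := h2 L' hL'
    exact hne ((leaf_eq hA).symm.trans (leaf_eq hA'))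
  · intro L hL
    obtain ⟨A₀, rfl⟩ := h2 L hL
    exact hZ.inter (meas_leaf F A₀)

/-- from the leaves to the whole -/
theorem leaf_le {β : Type} {F : QA β} {N : ℕ} (hN : ∀ A, ∀ x ∈ F.qs A, x.length ≤ N)
    {Z Y Y' : Set Oracle} (hZ : MeasurableSet Z) (hY : MeasurableSet Y) (hY' : MeasurableSet Y')
    (c : ℝ) (h : ∀ A₀, prob (Z ∩ Leaf F A₀) ≤ c * prob (Y ∩ Leaf F A₀) +
      prob (Y' ∩ Leaf F A₀)) : prob Z ≤ c * prob Y + prob Y' := by
  classical
  rw [leaf_total hN hZ, leaf_total hN hY, leaf_total hN hY', Finset.mul_sum,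
    ← Finset.sum_add_distrib]
  refine Finset.sum_le_sum fun L hL => ?_
  unfold leaves at hL
  obtain ⟨g, -, rfl⟩ := Finset.mem_image.1 hL
  exact h _

/-! ### Untouched candidates -/

theorem plant_leaf {β : Type} {F : QA β} {A₀ : Oracle} {J : Finset (List Bool)}
    (hJ : ∀ x ∈ F.qs A₀, x ∉ J) (A : Oracle) : plant J A ∈ Leaf F A₀ ↔ A ∈ Leaf F A₀ := by
  refine loc_leaf F A₀ _ _ fun x hx => ?_
  unfold plant
  rw [if_neg (hJ x (Finset.mem_coe.1 hx))]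

theorem prob_leaf {β : Type} {F : QA β} {A₀ : Oracle} {m : ℕ} {W : Finset Cand}
    (hW : ∀ κ ∈ W, ∀ x ∈ F.qs A₀, x ∉ spots m κ) :
    prob (Leaf F A₀ ∩ NoHit m W) = prob (Leaf F A₀) * (1 - (1 / 2) ^ m) ^ W.card :=
  M2.prob_noHit_aux (meas_leaf F A₀) m W fun κ hκ A => plant_leaf (hW κ hκ) A

theorem noHit_plant {m m' : ℕ} {W : Finset Cand} {κ' : Cand} (h : κ' ∉ W) (A : Oracle) :
    plant (spots m' κ') A ∈ NoHit m W ↔ A ∈ NoHit m W := by
  unfold NoHit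
  simp only [Set.mem_ofPred_eq]
  refine forall₂_congr fun κ hκ => not_congr ?_
  rw [M2.hit_iff, M2.hit_iff]
  refine forall₂_congr fun x hx => ?_
  have h1 : x ∉ spots m' κ' := notMem_spots_of_ne (fun h2 : κ = κ' => h (h2 ▸ hκ)) hx
  unfold plant
  rw [if_neg h1]

theorem prob_leaf2 {β : Type} {F : QA β} {A₀ : Oracle} {m m' : ℕ} {W W' : Finset Cand}
    (hW : ∀ κ ∈ W, ∀ x ∈ F.qs A₀, x ∉ spots m κ)
    (hW' : ∀ κ ∈ W', ∀ x ∈ F.qs A₀, x ∉ spots m' κ) (hd : ∀ κ ∈ W', κ ∉ W) :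
    prob (Leaf F A₀ ∩ (NoHit m W ∩ NoHit m' W')) =
      prob (Leaf F A₀) * (1 - (1 / 2) ^ m) ^ W.card * (1 - (1 / 2) ^ m') ^ W'.card := by
  rw [← Set.inter_assoc, M2.prob_noHit_aux ((meas_leaf F A₀).inter (M2.measurableSet_noHit m W)) m'
    W', prob_leaf hW]
  intro κ hκ A
  rw [Set.mem_inter_iff, Set.mem_inter_iff, plant_leaf (hW' κ hκ), noHit_plant (hd κ hκ)]

/-! ### Numbers -/

theorem pow_ge {m w : ℕ} (hm : 1 ≤ m) (hw : w ≤ 2 ^ m) :
    (1 / 4 : ℝ) ≤ (1 - (1 / 2) ^ m) ^ w := by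
  have h1 := sat_ge hm 1
  have h2 : (0 : ℝ) ≤ 1 - (1 / 2) ^ m := by
    have := half_pow_le_one m
    linarith
  have h3 : (1 - (1 / 2 : ℝ) ^ m) ≤ 1 := by
    have : (0 : ℝ) ≤ (1 / 2) ^ m := by positivity
    linarith
  have h4 : (1 - (1 / 2 : ℝ) ^ m) ^ (2 ^ m) ≤ (1 - (1 / 2) ^ m) ^ w :=
    pow_le_pow_of_le_one h2 h3 hw
  rw [pow_one, one_mul] at h1
  exact h1.trans h4

theorem pow_le {m w : ℕ} (hw : 2 ^ m ≤ 2 * w) :
    (1 - (1 / 2 : ℝ) ^ m) ^ w ≤ 3 / 4 := by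
  have h1 := sub_pow_le_exp ((1 / 2 : ℝ) ^ m) (half_pow_le_one m) w
  have h2 : (1 / 2 : ℝ) ≤ (1 / 2 : ℝ) ^ m * w := by
    have h3 : (2 : ℝ) ^ m ≤ 2 * w := by exact_mod_cast hw
    have h4 : (1 / 2 : ℝ) ^ m * 2 ^ m = 1 := by
      rw [← mul_pow]
      norm_num
    have h5 := mul_le_mul_of_nonneg_left h3 (show (0 : ℝ) ≤ (1 / 2) ^ m by positivity)
    linarith
  have h3 : Real.exp (-((1 / 2 : ℝ) ^ m * w)) ≤ Real.exp (-(1 / 2)) :=
    Real.exp_le_exp.2 (by linarith)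
  have h4 : (1 / 2 : ℝ) + 1 ≤ Real.exp (1 / 2) := Real.add_one_le_exp _
  have h5 : Real.exp (-(1 / 2)) ≤ 3 / 4 := by
    rw [Real.exp_neg, inv_le_comm₀ (Real.exp_pos _) (by norm_num)]
    linarith
  linarith

end Pool.Agent.H673R2.OneTT
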