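import Pool.Agent.H673R2.OneTT.Sep1
import Pool.Agent.H628R3.RO.M3

/-!
# Two questions are better than one: the sets, and the touched candidates
-/

namespace Pool.Agent.H673R2.OneTT

open MeasureTheory Pool.Agent.NPC Pool.Agent.H628R3.RO Pool.Agent.H673R2.OneOne

/-- the random sets -/
def Hs (c : ℕ) (A : Oracle) : Set (List Bool) :=
  {u | ∃ w : List Bool, w.length = u.length ∧ Hit u.length (c, u ++ w) A}

/-- the set which is complete under Turing reductions, but not under many-one reductions -/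
def DD (A : Oracle) : Set (List Bool) :=
  {v | (∃ u, v = false :: u ∧ u ∈ Hs 6 A) ∨
    (∃ u, v = true :: false :: u ∧ u ∈ Hs 6 A ∧ u ∈ KA A) ∨
    (∃ u, v = true :: true :: u ∧ (u ∈ Hs 6 A ∨ u ∈ KA A))}

/-- a bound for the length of the strings which matter -/
noncomputable def bK : Polynomial ℕ :=
  (qb uA).comp (3 * Polynomial.X + 1) + (3 * Polynomial.X + 9)

theorem bK_eval (m : ℕ) : bK.eval m = (qb uA).eval (3 * m + 1) + (3 * m + 9) := by
  unfold bK
  simp only [Polynomial.eval_add, Polynomial.eval_mul, Polynomial.eval_comp, Polynomial.eval_X,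
    Polynomial.eval_one, Polynomial.eval_ofNat]

theorem hs_congr {c : ℕ} {u : List Bool} {A A' : Oracle}
    (h : ∀ x : List Bool, x.length ≤ 3 * u.length + c + 2 → A x = A' x) :
    u ∈ Hs c A ↔ u ∈ Hs c A' := by
  unfold Hs
  simp only [Set.mem_ofPred_eq]
  refine exists_congr fun w => and_congr_right fun hw => ?_
  rw [M2.hit_iff, M2.hit_iff]
  refine forall₂_congr fun x hx => ?_
  have h1 := (length_of_mem_spots hx).2
  simp only [List.length_append] at h1
  rw [h x (by omega)]

theorem kA_congr {u : List Bool} {A A' : Oracle}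
    (h : ∀ x : List Bool, x.length ≤ (qb uA).eval (3 * u.length + 1) → A x = A' x) :
    u ∈ KA A ↔ u ∈ KA A' := by
  unfold KA
  simp only [Set.mem_ofPred_eq]
  refine exists_congr fun w => and_congr_right fun hw => ?_
  have h1 : (QA.out uA (pairBits u w)).val A' = (QA.out uA (pairBits u w)).val A := by
    refine ((QA.out uA (pairBits u w)).loc A A' fun x hx => (h x ?_).symm).1
    refine (qb_spec uA _ _ x hx).trans (eval_mono _ ?_)
    rw [H628R3.RO.length_pairBits]
    omega
  rw [QA.out_val, QA.out_val] at h1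
  rw [h1]

theorem dD_congr {v : List Bool} {A A' : Oracle}
    (h : ∀ x : List Bool, x.length ≤ bK.eval v.length → A x = A' x) :
    v ∈ DD A ↔ v ∈ DD A' := by
  have h1 : ∀ u : List Bool, u.length ≤ v.length →
      (u ∈ Hs 6 A ↔ u ∈ Hs 6 A') ∧ (u ∈ KA A ↔ u ∈ KA A') := by
    intro u hu
    constructor
    · refine hs_congr fun x hx => h x (hx.trans ?_)
      rw [bK_eval]
      omega
    · refine kA_congr fun x hx => h x (hx.trans ?_)
      rw [bK_eval]
      have := eval_mono (qb uA) (show 3 * u.length + 1 ≤ 3 * v.length + 1 by omega)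
      omega
  unfold DD
  simp only [Set.mem_ofPred_eq]
  refine or_congr (exists_congr fun u => and_congr_right fun hu => ?_)
    (or_congr (exists_congr fun u => and_congr_right fun hu => ?_)
    (exists_congr fun u => and_congr_right fun hu => ?_))
  · exact (h1 u (by rw [hu]; simp)).1
  · have := h1 u (by rw [hu]; simp; omega)
    rw [this.1, this.2]
  · have := h1 u (by rw [hu]; simp; omega)
    rw [this.1, this.2]

/-- the test string -/
def zz (n : ℕ) : List Bool := List.replicate n false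

theorem length_zz (n : ℕ) : (zz n).length = n := List.length_replicate

/-- the reduction works at the test string -/
def Work (M : Alg) (n : ℕ) : Set Oracle :=
  {A | ∃ v, M.out A (zz n) = some v ∧ (zz n ∈ Hs 5 A ↔ v ∈ DD A)}

/-- the number of bits -/
def mm (κ : Cand) : ℕ := κ.2.length / 2

/-- the candidate is touched -/
def Tc (Q : Finset (List Bool)) (κ : Cand) : Prop := ∃ x ∈ Q, x ∈ spots (mm κ) κ

/-- the relevant candidates -/
def Rel (n : ℕ) (κ : Cand) : Prop :=
  (κ.1 = 5 ∧ κ.2.length = 2 * n) ∨ (κ.1 = 6 ∧ n < bK.eval (mm κ + 2))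

/-- a relevant candidate is touched and a hit -/
def TH (M : Alg) (n : ℕ) : Set Oracle :=
  {A | ∃ κ, Rel n κ ∧ Tc ((QA.out M (zz n)).qs A) κ ∧ Hit (mm κ) κ A}

open Classical in
theorem card_Tc (F : Finset (List Bool)) (S : Finset Cand) :
    (S.filter (fun κ => Tc F κ)).card ≤ F.card := by
  apply Finset.card_le_card_of_surjOn (fun x => if h : ∃ κ, x ∈ spots (mm κ) κ then
    h.choose else (0, []))
  intro κ hκ
  rw [Finset.mem_coe, Finset.mem_filter] at hκ
  obtain ⟨-, x, hx, hxs⟩ := hκ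
  refine ⟨x, hx, ?_⟩
  have h : ∃ κ, x ∈ spots (mm κ) κ := ⟨κ, hxs⟩
  simp only [dif_pos h]
  have h1 := h.choose_spec
  by_contra hne
  exact notMem_spots_of_ne hne h1 hxs

theorem loc_qs {M : Alg} {n N : ℕ} (hN : ∀ A, ∀ x ∈ (QA.out M (zz n)).qs A, x.length ≤ N)
    (P : Finset (List Bool) → Prop) :
    Loc {x | x.length ≤ N} {A | P ((QA.out M (zz n)).qs A)} :=
  QA.loc_val (QA.out M (zz n)) hN (fun _ Q => P Q)

theorem finite_short' (N : ℕ) : {x : List Bool | x.length ≤ N}.Finite :=
  List.finite_length_le Bool N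

theorem prob_Tc_hit {M : Alg} {n N : ℕ} (hN : ∀ A, ∀ x ∈ (QA.out M (zz n)).qs A, x.length ≤ N)
    (κ : Cand) : prob ({A | Tc ((QA.out M (zz n)).qs A) κ} ∩ {A | Hit (mm κ) κ A}) =
      (1 / 2) ^ mm κ * prob {A | Tc ((QA.out M (zz n)).qs A) κ} := by
  apply M2.prob_hit_inter
  · exact measurableSet_of_loc (finite_short' N) (loc_qs hN fun Q => Tc Q κ)
  · intro A
    simp only [Set.mem_ofPred_eq]
    have key : ∀ A A' : Oracle, (∀ x, x ∉ spots (mm κ) κ → A x = A' x) →
        Tc ((QA.out M (zz n)).qs A) κ → Tc ((QA.out M (zz n)).qs A') κ := by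
      intro A A' h h1
      by_contra h2
      have h3 := ((QA.out M (zz n)).loc A' A fun x hx => h x fun h4 => h2 ⟨x, hx, h4⟩).2
      rw [h3] at h1
      exact h2 h1
    constructor
    · apply key
      intro x hx
      unfold plant
      rw [if_neg hx]
    · apply key
      intro x hx
      unfold plant
      rw [if_neg hx]

theorem prob_TH {M : Alg} {n C : ℕ} (hC : 0 < C)
    (h : ∀ κ, Rel n κ → C * (M.p.eval n + 1) ≤ 2 ^ mm κ) : prob (TH M n) ≤ 1 / C := by
  classical
  have hN : ∀ A, ∀ x ∈ (QA.out M (zz n)).qs A, x.length ≤ (qb M).eval n := by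
    intro A x hx
    have := qb_spec M _ _ x hx
    rwa [length_zz] at this
  set S : Finset Cand := (({5, 6} : Finset ℕ) ×ˢ (strs ((qb M).eval n)).toFinset).filter
    (fun κ => Rel n κ) with hS
  have h1 : TH M n ⊆ ⋃ κ ∈ S, ({A | Tc ((QA.out M (zz n)).qs A) κ} ∩ {A | Hit (mm κ) κ A}) := by
    rintro A ⟨κ, hR, hT, hH⟩
    simp only [Set.mem_iUnion]
    refine ⟨κ, ?_, hT, hH⟩
    rw [hS, Finset.mem_filter, Finset.mem_product]
    refine ⟨⟨?_, ?_⟩, hR⟩
    · rcases hR with ⟨h2, -⟩ | ⟨h2, -⟩ <;> simp [h2]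
    · obtain ⟨x, hx, hxs⟩ := hT
      have h2 := hN A x hx
      obtain ⟨i, -, rfl⟩ := M2.mem_spots.1 hxs
      rw [length_pos] at h2
      rw [List.mem_toFinset, mem_strs]
      omega
  refine (M2.prob_mono h1).trans ((prob_biUnion_le' _ _).trans ?_)
  have h2 : ∀ κ ∈ S, prob ({A | Tc ((QA.out M (zz n)).qs A) κ} ∩ {A | Hit (mm κ) κ A}) ≤
      1 / (C * (M.p.eval n + 1 : ℕ)) * prob {A | Tc ((QA.out M (zz n)).qs A) κ} := by
    intro κ hκ
    rw [prob_Tc_hit hN]
    apply mul_le_mul_of_nonneg_right _ (M2.prob_nonneg _)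
    have h3 := h κ (Finset.mem_filter.1 hκ).2
    rw [one_div_pow]
    apply one_div_le_one_div_of_le
    · positivity
    · exact_mod_cast h3
  refine (Finset.sum_le_sum h2).trans ?_
  rw [← Finset.mul_sum]
  have h3 : ∑ κ ∈ S, prob {A | Tc ((QA.out M (zz n)).qs A) κ} ≤ ((M.p.eval n + 1 : ℕ) : ℝ) := by
    apply sum_prob_le_card _ _ (fun κ _ => measurableSet_of_loc (finite_short' _)
      (loc_qs hN fun Q => Tc Q κ))
    intro A
    have h4 := QA.out_card M (zz n) A
    rw [length_zz] at h4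
    have h5 := (card_Tc ((QA.out M (zz n)).qs A) S).trans (h4.trans (Nat.le_succ _))
    exact_mod_cast h5
  calc 1 / ((C : ℝ) * (M.p.eval n + 1 : ℕ)) * ∑ κ ∈ S, prob {A | Tc ((QA.out M (zz n)).qs A) κ}
      ≤ 1 / ((C : ℝ) * (M.p.eval n + 1 : ℕ)) * ((M.p.eval n + 1 : ℕ) : ℝ) := by
        apply mul_le_mul_of_nonneg_left h3 (by positivity)
    _ = 1 / C := by
        have h4 : ((M.p.eval n + 1 : ℕ) : ℝ) ≠ 0 := by positivity
        have h5 : (C : ℝ) ≠ 0 := by positivity
        field_simp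

open Classical in
/-- the candidates for `u` which are not touched -/
noncomputable def Wc (c : ℕ) (u : List Bool) (Q : Finset (List Bool)) : Finset Cand :=
  ((SS u.length).image (fun w => ((c, u ++ w) : Cand))).filter (fun κ => ¬ Tc Q κ)

theorem mem_Wc {c : ℕ} {u : List Bool} {Q : Finset (List Bool)} {κ : Cand} :
    κ ∈ Wc c u Q ↔ (∃ w : List Bool, w.length = u.length ∧ (c, u ++ w) = κ) ∧ ¬ Tc Q κ := by
  classical
  unfold Wc
  rw [Finset.mem_filter, Finset.mem_image]
  simp only [mem_SS]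

theorem mm_cand {c : ℕ} {u w : List Bool} (hw : w.length = u.length) :
    mm (c, u ++ w) = u.length := by
  unfold mm
  simp only [List.length_append, hw]
  omega

theorem card_Wc_le (c : ℕ) (u : List Bool) (Q : Finset (List Bool)) :
    (Wc c u Q).card ≤ 2 ^ u.length := by
  classical
  unfold Wc
  refine (Finset.card_filter_le _ _).trans (Finset.card_image_le.trans ?_)
  rw [card_SS]

theorem card_Wc_ge (c : ℕ) (u : List Bool) (Q : Finset (List Bool)) :
    2 ^ u.length ≤ (Wc c u Q).card + Q.card := by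
  classical
  have h1 : ((SS u.length).image (fun w => ((c, u ++ w) : Cand))).card = 2 ^ u.length := by
    rw [Finset.card_image_of_injective, card_SS]
    intro w w' h
    have h2 := congrArg Prod.snd h
    simp only at h2
    exact List.append_cancel_left h2
  obtain ⟨T, hT, hT'⟩ : ∃ T : Finset Cand, T.card ≤ Q.card ∧
      ∀ κ ∈ (SS u.length).image (fun w => ((c, u ++ w) : Cand)), Tc Q κ → κ ∈ T :=
    ⟨_, card_Tc Q ((SS u.length).image (fun w => ((c, u ++ w) : Cand))),
      fun κ h1 h2 => Finset.mem_filter.2 ⟨h1, h2⟩⟩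
  have h3 : (SS u.length).image (fun w => ((c, u ++ w) : Cand)) ⊆ Wc c u Q ∪ T := by
    intro κ hκ
    by_cases h4 : Tc Q κ
    · exact Finset.mem_union_right _ (hT' κ hκ h4)
    · apply Finset.mem_union_left
      rw [mem_Wc]
      obtain ⟨w, hw, h5⟩ := Finset.mem_image.1 hκ
      exact ⟨⟨w, mem_SS.1 hw, h5⟩, h4⟩
  have h4 := (Finset.card_le_card h3).trans (Finset.card_union_le _ _)
  omega

theorem hs_iff {M : Alg} {n c : ℕ} {u : List Bool} {A : Oracle} (hA : A ∉ TH M n)
    (hR : ∀ w : List Bool, w.length = u.length → Rel n (c, u ++ w)) :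
    u ∈ Hs c A ↔ A ∉ NoHit u.length (Wc c u ((QA.out M (zz n)).qs A)) := by
  constructor
  · rintro ⟨w, hw, hH⟩ hN
    have h1 : (c, u ++ w) ∈ Wc c u ((QA.out M (zz n)).qs A) := by
      rw [mem_Wc]
      refine ⟨⟨w, hw, rfl⟩, fun hT => hA ⟨_, hR w hw, hT, ?_⟩⟩
      rw [mm_cand hw]
      exact hH
    exact hN _ h1 hH
  · intro h
    unfold NoHit at h
    simp only [Set.mem_ofPred_eq, not_forall, not_not] at h
    obtain ⟨κ, hκ, hH⟩ := h
    obtain ⟨⟨w, hw, rfl⟩, -⟩ := mem_Wc.1 hκ
    exact ⟨w, hw, hH⟩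

end Pool.Agent.H673R2.OneTT
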