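import Pool.Agent.H673R2.OneTT.Sep2

/-!
# Two questions are better than one: no many-one reduction works
-/

namespace Pool.Agent.H673R2.OneTT

open MeasureTheory Pool.Agent.NPC Pool.Agent.H628R3.RO Pool.Agent.H673R2.OneOne

/-- read some strings -/
def rdAll (S : Finset (List Bool)) : QA Unit where
  val := fun _ => ()
  qs := fun _ => S
  loc := fun _ _ _ => ⟨rfl, rfl⟩

/-- membership of the output depends only on strings of length at most `n` -/
noncomputable def short (n : ℕ) : Option (List Bool) → Bool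
  | some v => decide (bK.eval v.length ≤ n)
  | none => false

/-- the algorithm together with some more questions -/
noncomputable def FF (M : Alg) (n t : ℕ) : QA (Option (List Bool)) :=
  (rdAll (strs t).toFinset).bind fun _ => (QA.out M (zz n)).bind fun o =>
    (rdAll (if short n o = true then (strs n).toFinset else ∅)).bind fun _ => QA.pure o

theorem mem_qs_FF {M : Alg} {n t : ℕ} {A : Oracle} {x : List Bool} :
    x ∈ (FF M n t).qs A ↔ x.length ≤ t ∨ x ∈ (QA.out M (zz n)).qs A ∨
      (short n (M.out A (zz n)) = true ∧ x.length ≤ n) := by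
  have h1 : (FF M n t).qs A = (strs t).toFinset ∪ ((QA.out M (zz n)).qs A ∪
      ((if short n ((QA.out M (zz n)).val A) = true then (strs n).toFinset else ∅) ∪ ∅)) := rfl
  rw [h1, QA.out_val]
  simp only [Finset.mem_union, List.mem_toFinset, mem_strs]
  split_ifs with h
  · simp only [List.mem_toFinset, mem_strs, Finset.notMem_empty, or_false, h, true_and]
  · simp only [Finset.notMem_empty, or_false, h, Bool.false_eq_true, false_and]

/-- what is the same on a leaf -/
theorem leaf_spec {M : Alg} {n t : ℕ} {A A₀ : Oracle} (h : A ∈ Leaf (FF M n t) A₀) :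
    (∀ x : List Bool, x.length ≤ t → A x = A₀ x) ∧ M.out A (zz n) = M.out A₀ (zz n) ∧
      (QA.out M (zz n)).qs A = (QA.out M (zz n)).qs A₀ ∧
      (short n (M.out A₀ (zz n)) = true → ∀ x : List Bool, x.length ≤ n → A x = A₀ x) := by
  have h1 := (QA.out M (zz n)).loc A₀ A fun x hx => h x (mem_qs_FF.2 (Or.inr (Or.inl hx)))
  rw [QA.out_val, QA.out_val] at h1
  exact ⟨fun x hx => h x (mem_qs_FF.2 (Or.inl hx)), h1.1, h1.2,
    fun hs x hx => h x (mem_qs_FF.2 (Or.inr (Or.inr ⟨hs, hx⟩)))⟩

/-- the untouched candidates -/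
theorem untouched {M : Alg} {n t c : ℕ} {u : List Bool} {A₀ : Oracle}
    (ht : t ≤ 2 * u.length)
    (hn : short n (M.out A₀ (zz n)) = true → n ≤ 2 * u.length) :
    ∀ κ ∈ Wc c u ((QA.out M (zz n)).qs A₀), ∀ x ∈ (FF M n t).qs A₀, x ∉ spots u.length κ := by
  intro κ hκ x hx hxs
  obtain ⟨⟨w, hw, rfl⟩, hT⟩ := mem_Wc.1 hκ
  have h1 : 2 * u.length < x.length := by
    obtain ⟨i, -, rfl⟩ := M2.mem_spots.1 hxs
    rw [length_pos]
    simp only [List.length_append, hw]
    omega
  rcases mem_qs_FF.1 hx with h2 | h2 | ⟨h2, h3⟩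
  · omega
  · apply hT
    refine ⟨x, h2, ?_⟩
    rw [mm_cand hw]
    exact hxs
  · have := hn h2
    omega

theorem prob_sdiff {S X : Set Oracle} (hX : MeasurableSet X) :
    prob (S \ X) = prob S - prob (S ∩ X) := by
  have h1 := M2.prob_inter_add_compl S hX
  rw [Set.sdiff_eq]
  linarith

theorem four {p a b : ℝ} (hp : 0 ≤ p) (ha : 1 / 4 ≤ a) (hb : b ≤ 3 / 4) :
    p * a * b ≤ p * a - 1 / 16 * p := by
  have h1 : 0 ≤ p * (a - 1 / 4) := mul_nonneg hp (by linarith)
  have h2 : 0 ≤ p * a * (3 / 4 - b) := mul_nonneg (mul_nonneg hp (by linarith)) (by linarith)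
  nlinarith

variable {M : Alg} {n t : ℕ} {A₀ : Oracle}

/-- the estimate for one leaf -/
theorem leaf_work (hn : 1 ≤ n) (hnt : t ≤ n)
    (hC : ∀ κ, Rel n κ → 2 * (M.p.eval n + 1) ≤ 2 ^ mm κ ∧ t ≤ 2 * mm κ) :
    prob (Work M n ∩ Leaf (FF M n t) A₀) ≤ 15 / 16 * prob (Leaf (FF M n t) A₀) +
      prob (TH M n ∩ Leaf (FF M n t) A₀) := by
  set Λ := Leaf (FF M n t) A₀ with hΛ
  set Q := (QA.out M (zz n)).qs A₀ with hQ
  have hQc : Q.card ≤ M.p.eval n := by
    have h4 := QA.out_card M (zz n) A₀
    rwa [length_zz] at h4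
  have hp : 0 ≤ prob Λ := M2.prob_nonneg _
  -- the candidates for the test string
  have hR5 : ∀ w : List Bool, w.length = (zz n).length → Rel n (5, zz n ++ w) := by
    intro w hw
    left
    refine ⟨rfl, ?_⟩
    simp only [List.length_append, hw, length_zz]
    omega
  set W5 := Wc 5 (zz n) Q with hW5
  have hun5 : ∀ κ ∈ W5, ∀ x ∈ (FF M n t).qs A₀, x ∉ spots n κ := by
    have := untouched (M := M) (n := n) (t := t) (c := 5) (u := zz n) (A₀ := A₀)
      (by rw [length_zz]; omega) (fun _ => by rw [length_zz]; omega)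
    rw [length_zz] at this
    exact this
  have hq5 : 2 * (M.p.eval n + 1) ≤ 2 ^ n := by
    have := (hC (5, zz n ++ zz n) (hR5 _ rfl)).1
    rwa [mm_cand rfl, length_zz] at this
  have hle5 : W5.card ≤ 2 ^ n := by
    have := card_Wc_le 5 (zz n) Q
    rwa [length_zz] at this
  have hge5 : 2 ^ n ≤ 2 * W5.card := by
    have := card_Wc_ge 5 (zz n) Q
    rw [length_zz, ← hW5] at this
    omega
  have ha5 := pow_ge hn hle5
  have hb5 := pow_le hge5
  set a5 : ℝ := (1 - (1 / 2) ^ n) ^ W5.card with ha5'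
  have hm5 : MeasurableSet (NoHit n W5) := M2.measurableSet_noHit n W5
  have hp5 : prob (Λ ∩ NoHit n W5) = prob Λ * a5 := prob_leaf hun5
  have h5 : ∀ A ∈ Λ, A ∉ TH M n → (zz n ∈ Hs 5 A ↔ A ∉ NoHit n W5) := by
    intro A hA hT
    have h1 := hs_iff hT hR5
    rw [length_zz, (leaf_spec hA).2.2.1] at h1
    exact h1
  -- the two simple cases
  have caseF : (∀ A ∈ Λ, A ∈ Work M n → zz n ∉ Hs 5 A) →
      prob (Work M n ∩ Λ) ≤ 15 / 16 * prob Λ + prob (TH M n ∩ Λ) := by
    intro h
    have h1 : Work M n ∩ Λ ⊆ (Λ ∩ NoHit n W5) ∪ (TH M n ∩ Λ) := by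
      rintro A ⟨hA, hL⟩
      by_cases hT : A ∈ TH M n
      · exact Or.inr ⟨hT, hL⟩
      · left
        refine ⟨hL, ?_⟩
        by_contra h2
        exact h A hL hA ((h5 A hL hT).2 h2)
    refine (M2.prob_mono h1).trans ((M2.prob_union_le _ _).trans ?_)
    rw [hp5]
    nlinarith
  have caseT : (∀ A ∈ Λ, A ∈ Work M n → zz n ∈ Hs 5 A) →
      prob (Work M n ∩ Λ) ≤ 15 / 16 * prob Λ + prob (TH M n ∩ Λ) := by
    intro h
    have h1 : Work M n ∩ Λ ⊆ (Λ \ NoHit n W5) ∪ (TH M n ∩ Λ) := by
      rintro A ⟨hA, hL⟩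
      by_cases hT : A ∈ TH M n
      · exact Or.inr ⟨hT, hL⟩
      · left
        exact ⟨hL, (h5 A hL hT).1 (h A hL hA)⟩
    refine (M2.prob_mono h1).trans ((M2.prob_union_le _ _).trans ?_)
    rw [prob_sdiff hm5, hp5]
    nlinarith
  -- the output
  rcases ho : M.out A₀ (zz n) with _ | v
  · have h1 : Work M n ∩ Λ ⊆ ∅ := by
      rintro A ⟨⟨v, hv, -⟩, hL⟩
      rw [(leaf_spec hL).2.1, ho] at hv
      exact absurd hv (by simp)
    refine (M2.prob_mono h1).trans ?_
    have h2 : prob (∅ : Set Oracle) = 0 := by simp [prob]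
    rw [h2]
    have := M2.prob_nonneg (TH M n ∩ Λ)
    linarith
  have hW : ∀ A ∈ Λ, A ∈ Work M n → (zz n ∈ Hs 5 A ↔ v ∈ DD A) := by
    rintro A hL ⟨v', hv', h⟩
    rw [(leaf_spec hL).2.1, ho, Option.some.injEq] at hv'
    subst hv'
    exact h
  by_cases hs : bK.eval v.length ≤ n
  · -- short output
    have hsh : short n (M.out A₀ (zz n)) = true := by
      rw [ho]
      show decide (bK.eval v.length ≤ n) = true
      rw [decide_eq_true_eq]
      exact hs
    have hD : ∀ A ∈ Λ, (v ∈ DD A ↔ v ∈ DD A₀) := fun A hL =>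
      dD_congr fun x hx => (leaf_spec hL).2.2.2 hsh x (hx.trans hs)
    by_cases hv : v ∈ DD A₀
    · exact caseT fun A hL hA => (hW A hL hA).2 ((hD A hL).2 hv)
    · exact caseF fun A hL hA h => hv ((hD A hL).1 ((hW A hL hA).1 h))
  · -- long output
    push Not at hs
    have hsh : ¬ short n (M.out A₀ (zz n)) = true := by
      rw [ho]
      show ¬ decide (bK.eval v.length ≤ n) = true
      rw [decide_eq_true_eq]
      omega
    -- the candidates for the string asked about
    have key : ∀ u : List Bool, v.length ≤ u.length + 2 →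
        ((∀ A, u ∉ Hs 6 A → v ∉ DD A) ∨ (∀ A, u ∈ Hs 6 A → v ∈ DD A)) →
        prob (Work M n ∩ Λ) ≤ 15 / 16 * prob Λ + prob (TH M n ∩ Λ) := by
      intro u hu hcase
      have hR6 : ∀ w : List Bool, w.length = u.length → Rel n (6, u ++ w) := by
        intro w hw
        right
        refine ⟨rfl, ?_⟩
        rw [mm_cand hw]
        exact hs.trans_le (eval_mono _ hu)
      have hC6 := hC _ (hR6 u rfl)
      rw [mm_cand rfl] at hC6
      obtain ⟨hq6, ht6⟩ := hC6
      set W6 := Wc 6 u Q with hW6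
      have hun6 : ∀ κ ∈ W6, ∀ x ∈ (FF M n t).qs A₀, x ∉ spots u.length κ :=
        untouched ht6 (fun h => absurd h hsh)
      have hu1 : 1 ≤ u.length := by
        rcases Nat.eq_zero_or_pos u.length with h | h
        · rw [h, pow_zero] at hq6
          omega
        · exact h
      have hle6 : W6.card ≤ 2 ^ u.length := card_Wc_le 6 u Q
      have hge6 : 2 ^ u.length ≤ 2 * W6.card := by
        have := card_Wc_ge 6 u Q
        rw [← hW6] at this
        omega
      have ha6 := pow_ge hu1 hle6
      have hb6 := pow_le hge6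
      set a6 : ℝ := (1 - (1 / 2) ^ u.length) ^ W6.card with ha6'
      have hm6 : MeasurableSet (NoHit u.length W6) := M2.measurableSet_noHit _ W6
      have hp6 : prob (Λ ∩ NoHit u.length W6) = prob Λ * a6 := prob_leaf hun6
      have hd : ∀ κ ∈ W6, κ ∉ W5 := by
        intro κ h1 h2
        obtain ⟨⟨w, -, rfl⟩, -⟩ := mem_Wc.1 h1
        obtain ⟨⟨w', -, h3⟩, -⟩ := mem_Wc.1 h2
        exact absurd (congrArg Prod.fst h3) (by simp)
      have hp56 : prob (Λ ∩ (NoHit n W5 ∩ NoHit u.length W6)) = prob Λ * a5 * a6 :=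
        prob_leaf2 hun5 hun6 hd
      have h6 : ∀ A ∈ Λ, A ∉ TH M n → (u ∈ Hs 6 A ↔ A ∉ NoHit u.length W6) := by
        intro A hA hT
        have h1 := hs_iff hT hR6
        rw [(leaf_spec hA).2.2.1] at h1
        exact h1
      rcases hcase with hc | hc
      · -- a nonmember if `u` is not in the random set
        have h1 : Work M n ∩ Λ ⊆ (Λ \ (NoHit u.length W6 ∩ (NoHit n W5)ᶜ)) ∪ (TH M n ∩ Λ) := by
          rintro A ⟨hA, hL⟩
          by_cases hT : A ∈ TH M n
          · exact Or.inr ⟨hT, hL⟩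
          · left
            refine ⟨hL, ?_⟩
            rintro ⟨h2, h3⟩
            have h4 : u ∉ Hs 6 A := fun h => (h6 A hL hT).1 h h2
            exact hc A h4 ((hW A hL hA).1 ((h5 A hL hT).2 h3))
        refine (M2.prob_mono h1).trans ((M2.prob_union_le _ _).trans ?_)
        rw [prob_sdiff (hm6.inter hm5.compl)]
        have h2 := M2.prob_inter_add_compl (Λ ∩ NoHit u.length W6) hm5
        have h3 : Λ ∩ NoHit u.length W6 ∩ NoHit n W5 = Λ ∩ (NoHit n W5 ∩ NoHit u.length W6) := by
          rw [Set.inter_assoc, Set.inter_comm (NoHit u.length W6)]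
        rw [h3, hp56, hp6, Set.inter_assoc] at h2
        have h4 := four hp ha6 hb5
        linarith
      · have h1 : Work M n ∩ Λ ⊆ (Λ \ (NoHit n W5 ∩ (NoHit u.length W6)ᶜ)) ∪ (TH M n ∩ Λ) := by
          rintro A ⟨hA, hL⟩
          by_cases hT : A ∈ TH M n
          · exact Or.inr ⟨hT, hL⟩
          · left
            refine ⟨hL, ?_⟩
            rintro ⟨h2, h3⟩
            have h4 : u ∈ Hs 6 A := (h6 A hL hT).2 h3
            exact (h5 A hL hT).1 ((hW A hL hA).2 (hc A h4)) h2
        refine (M2.prob_mono h1).trans ((M2.prob_union_le _ _).trans ?_)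
        rw [prob_sdiff (hm5.inter hm6.compl)]
        have h2 := M2.prob_inter_add_compl (Λ ∩ NoHit n W5) hm6
        rw [Set.inter_assoc, hp56, hp5, Set.inter_assoc] at h2
        have h4 := four hp ha5 hb6
        linarith
    rcases v with _ | ⟨b, v⟩
    · refine caseF fun A hL hA h => ?_
      have h1 := (hW A hL hA).1 h
      unfold DD at h1
      simp at h1
    · cases b with
      | false =>
        refine key v (by simp) (Or.inl fun A hu hv => ?_)
        unfold DD at hv
        simp only [Set.mem_ofPred_eq, List.cons.injEq, true_and, Bool.false_eq_true, false_and,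
          exists_false, or_false] at hv
        obtain ⟨u, rfl, h⟩ := hv
        exact hu h
      | true =>
        rcases v with _ | ⟨b, v⟩
        · refine caseF fun A hL hA h => ?_
          have h1 := (hW A hL hA).1 h
          unfold DD at h1
          simp at h1
        · cases b with
          | false =>
            refine key v (by simp) (Or.inl fun A hu hv => ?_)
            unfold DD at hv
            simp at hv
            exact hu hv.1
          | true =>
            refine key v (by simp) (Or.inr fun A hu => ?_)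
            unfold DD
            simp only [Set.mem_ofPred_eq]
            exact Or.inr (Or.inr ⟨v, rfl, Or.inl hu⟩)

end Pool.Agent.H673R2.OneTT
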