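import Pool.Agent.H673R2.OneTT.Sep3

/-!
# Two questions are better than one: conclusion
-/

namespace Pool.Agent.H673R2.OneTT

open MeasureTheory Pool.Agent.NPC Pool.Agent.H628R3.RO Pool.Agent.H673R2.OneOne

theorem rel_large (M : Alg) (C t : ℕ) : ∃ n0, ∀ n ≥ n0, ∀ κ, Rel n κ →
    C * (M.p.eval n + 1) ≤ 2 ^ mm κ ∧ t ≤ 2 * mm κ := by
  obtain ⟨n1, h1⟩ := mul_poly_le_two_pow' (M.p + 1) C
  obtain ⟨m0, h2⟩ := mul_poly_le_two_pow' ((M.p + 1).comp (bK.comp (Polynomial.X + 2))) C
  refine ⟨max (max n1 t) (bK.eval (max m0 t + 2)), fun n hn κ hκ => ?_⟩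
  have hn1 : n1 ≤ n := le_trans (le_trans (le_max_left _ _) (le_max_left _ _)) hn
  have hnt : t ≤ n := le_trans (le_trans (le_max_right _ _) (le_max_left _ _)) hn
  have hnb : bK.eval (max m0 t + 2) ≤ n := le_trans (le_max_right _ _) hn
  rcases hκ with ⟨-, h3⟩ | ⟨-, h3⟩
  · have h4 : mm κ = n := by
      unfold mm
      omega
    rw [h4]
    have h5 := h1 n hn1
    simp only [Polynomial.eval_add, Polynomial.eval_one] at h5
    exact ⟨h5, by omega⟩
  · have h4 : max m0 t ≤ mm κ := by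
      by_contra h5
      push Not at h5
      have h6 := eval_mono bK (show mm κ + 2 ≤ max m0 t + 2 by omega)
      omega
    have h5 := h2 (mm κ) ((le_max_left _ _).trans h4)
    simp only [Polynomial.eval_add, Polynomial.eval_one, Polynomial.eval_comp, Polynomial.eval_X,
      Polynomial.eval_ofNat] at h5
    refine ⟨le_trans (Nat.mul_le_mul_left C ?_) h5, ?_⟩
    · have := eval_mono M.p h3.le
      omega
    · have := (le_max_right m0 t).trans h4
      omega

theorem loc_TH (M : Alg) (n : ℕ) :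
    Loc {x | x.length ≤ 3 * (qb M).eval n + 10} (TH M n) := by
  intro A A' h
  have hN : ∀ A, ∀ x ∈ (QA.out M (zz n)).qs A, x.length ≤ (qb M).eval n := by
    intro A x hx
    have := qb_spec M _ _ x hx
    rwa [length_zz] at this
  have h1 := ((QA.out M (zz n)).loc A A' fun x hx => (h x (by
    have := hN A x hx
    show x.length ≤ _
    omega)).symm).2
  unfold TH
  simp only [Set.mem_ofPred_eq, h1]
  refine exists_congr fun κ => and_congr_right fun hR => and_congr_right fun hT => ?_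
  rw [M2.hit_iff, M2.hit_iff]
  obtain ⟨y, hy, hys⟩ := hT
  have h2 := hN A y hy
  have h3 : κ.2.length ≤ (qb M).eval n := by
    obtain ⟨i, -, rfl⟩ := M2.mem_spots.1 hys
    rw [length_pos] at h2
    omega
  have h4 : κ.1 ≤ 6 := by
    rcases hR with ⟨h5, -⟩ | ⟨h5, -⟩ <;> omega
  refine forall₂_congr fun x hx => ?_
  have h5 := (length_of_mem_spots hx).2
  have h6 : mm κ ≤ κ.2.length := Nat.div_le_self _ _
  rw [h x (by show x.length ≤ _; omega)]

theorem loc_Work (M : Alg) (n : ℕ) : ∃ N, Loc {x | x.length ≤ N} (Work M n) := by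
  obtain ⟨b, hb⟩ := M.out_length
  refine ⟨(qb M).eval n + bK.eval (b.eval n) + (3 * n + 7), fun A A' h => ?_⟩
  have hN : ∀ A, ∀ x ∈ (QA.out M (zz n)).qs A, x.length ≤ (qb M).eval n := by
    intro A x hx
    have := qb_spec M _ _ x hx
    rwa [length_zz] at this
  have h1 := ((QA.out M (zz n)).loc A A' fun x hx => (h x (by
    have := hN A x hx
    show x.length ≤ _
    omega)).symm).1
  rw [QA.out_val, QA.out_val] at h1
  unfold Work
  simp only [Set.mem_ofPred_eq, h1]
  refine exists_congr fun v => and_congr_right fun hv => ?_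
  have h2 := hb A _ _ hv
  rw [length_zz] at h2
  have h3 : zz n ∈ Hs 5 A ↔ zz n ∈ Hs 5 A' := by
    apply hs_congr
    intro x hx
    rw [length_zz] at hx
    exact h x (by show x.length ≤ _; omega)
  have h4 : v ∈ DD A ↔ v ∈ DD A' := by
    apply dD_congr
    intro x hx
    have h5 := eval_mono bK h2
    exact h x (by show x.length ≤ _; omega)
  rw [h3, h4]

theorem meas_Work (M : Alg) (n : ℕ) : MeasurableSet (Work M n) := by
  obtain ⟨N, h⟩ := loc_Work M n
  exact measurableSet_of_loc (finite_short' N) h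

theorem work_cyl (M : Alg) {t : ℕ} {L : List (List Bool)} (hpos : 0 < prob (cyl t L)) :
    ∃ n, prob (Work M n ∩ cyl t L) ≤ 61 / 64 * prob (cyl t L) := by
  obtain ⟨C, hC⟩ := exists_nat_gt (64 / prob (cyl t L))
  obtain ⟨n0, h0⟩ := rel_large M (C + 2) t
  set n := max (max n0 t) 1 with hn
  have hn0 : n0 ≤ n := le_trans (le_max_left _ _) (le_max_left _ _)
  have hnt : t ≤ n := le_trans (le_max_right _ _) (le_max_left _ _)
  have hn1 : 1 ≤ n := le_max_right _ _
  refine ⟨n, ?_⟩
  have hTH : prob (TH M n) ≤ 1 / 64 * prob (cyl t L) := by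
    refine (prob_TH (C := C + 2) (by omega) fun κ hκ => (h0 n hn0 κ hκ).1).trans ?_
    have h1 : 64 / prob (cyl t L) < ((C + 2 : ℕ) : ℝ) := by
      push_cast
      linarith
    rw [div_lt_iff₀ hpos] at h1
    rw [div_le_iff₀ (by positivity)]
    linarith
  have hlen : ∀ A, ∀ x ∈ (FF M n t).qs A, x.length ≤ max t (max ((qb M).eval n) n) := by
    intro A x hx
    rcases mem_qs_FF.1 hx with h1 | h1 | ⟨-, h1⟩
    · exact h1.trans (le_max_left _ _)
    · have h2 := qb_spec M _ _ x h1
      rw [length_zz] at h2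
      exact h2.trans (le_trans (le_max_left _ _) (le_max_right _ _))
    · exact h1.trans (le_trans (le_max_right _ _) (le_max_right _ _))
  have h1 := leaf_le (F := FF M n t) hlen (Z := Work M n ∩ cyl t L) (Y := cyl t L)
    (Y' := TH M n) ((meas_Work M n).inter (measurableSet_cyl t L)) (measurableSet_cyl t L)
    (measurableSet_of_loc (finite_short' _) (loc_TH M n)) (15 / 16) ?_
  · linarith
  · intro A₀
    by_cases hA : A₀ ∈ cyl t L
    · have h2 : Leaf (FF M n t) A₀ ⊆ cyl t L := by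
        intro A hL x hx
        rw [(leaf_spec hL).1 x hx]
        exact hA x hx
      have h3 : cyl t L ∩ Leaf (FF M n t) A₀ = Leaf (FF M n t) A₀ :=
        Set.inter_eq_right.2 h2
      rw [h3]
      refine le_trans (M2.prob_mono ?_) (leaf_work hn1 hnt fun κ hκ => ?_)
      · rintro A ⟨⟨h4, -⟩, h5⟩
        exact ⟨h4, h5⟩
      · obtain ⟨h4, h5⟩ := h0 n hn0 κ hκ
        refine ⟨le_trans ?_ h4, h5⟩
        apply Nat.mul_le_mul_right
        omega
    · have h2 : (Work M n ∩ cyl t L) ∩ Leaf (FF M n t) A₀ ⊆ ∅ := by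
        rintro A ⟨⟨-, h4⟩, h5⟩
        apply hA
        intro x hx
        rw [← (leaf_spec h5).1 x hx]
        exact h4 x hx
      refine (M2.prob_mono h2).trans ?_
      have h3 : prob (∅ : Set Oracle) = 0 := by simp [prob]
      rw [h3]
      have h4 := M2.prob_nonneg (cyl t L ∩ Leaf (FF M n t) A₀)
      have h5 := M2.prob_nonneg (TH M n ∩ Leaf (FF M n t) A₀)
      linarith

theorem ae_sep : ∀ᵐ A ∂randomOracle, ∀ M : Alg, ∃ n, A ∉ Work M n := by
  rw [ae_all_iff]
  intro M
  rw [ae_iff]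
  have h1 : {A : Oracle | ¬ ∃ n, A ∉ Work M n} = ⋂ n, Work M n := by
    ext A
    simp
  rw [h1]
  have hm : MeasurableSet (⋂ n, Work M n) := MeasurableSet.iInter fun n => meas_Work M n
  by_contra hne
  have hpos : 0 < prob (⋂ n, Work M n) := by
    unfold prob
    rw [measureReal_def]
    exact ENNReal.toReal_pos hne (measure_ne_top _ _)
  obtain ⟨t, L, hL, h2⟩ := exists_cyl hm hpos (δ := 1 / 64) (by norm_num)
  obtain ⟨n, h3⟩ := work_cyl M hL
  have h4 : prob ((⋂ n, Work M n) ∩ cyl t L) ≤ prob (Work M n ∩ cyl t L) := by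
    apply M2.prob_mono
    rintro A ⟨h5, h6⟩
    exact ⟨Set.mem_iInter.1 h5 n, h6⟩
  linarith

/-- Almost surely, the random set does not reduce to `DD`. -/
theorem ae_not_red : ∀ᵐ A ∂randomOracle, ¬ Red A (Hs 5 A) (DD A) := by
  filter_upwards [ae_sep] with A hA
  rintro ⟨F, ⟨M, hM⟩, hF⟩
  obtain ⟨n, hn⟩ := hA M
  exact hn ⟨F (zz n), hM _, hF _⟩

end Pool.Agent.H673R2.OneTT
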